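import Pool.Agent.H87.LR.Lim0

/-!
# LR HalfOf: the statement on half planes from the two closeness statements

`LA`: a member close to a section on a half plane is the section; `LH`: two members away from the sections and close to each other are equal.
A member which is not a section is away from the sections on a smaller half plane (`away_sec`); so `LA` and `LH` give the field `half` of `HDyn`.
-/

set_option autoImplicit false

open Topology Filter Metric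

namespace Pool.Agent.H62.LR

open Pool.Agent.H87.LU

variable {Y : Type} [MetricSpace Y] {K : Set Y} {p : ℝ} {B : Set ℂ} {δ W : ℝ} {S : Set ℂ → Set (ℂ → Y)}

/-- an entire member which is not the section `s` differs from `s` everywhere; with the first exit argument: a member which is not the section is away from it on a half plane -/
theorem away_sec (h : HD0 K p B δ W S) (Se : Set (ℂ → Y)) (hfin : Se.Finite) (hS : ∀ s ∈ Se, s ∈ S Set.univ)
    (hper : ∀ s ∈ Se, ∀ z, s (z + p * Complex.I) = s z)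
    (hdis : ∀ f ∈ S Set.univ, ∀ s ∈ Se, ∀ z, z ∉ B → f z = s z → AgO B Set.univ f s)
    (LA : ∃ δ₁ : ℝ, 0 < δ₁ ∧ ∀ σ ρ : ℝ, (σ = 1 ∨ σ = -1) → ∀ f ∈ S (HP σ ρ), ∀ s ∈ Se,
      (∀ z ∈ HP σ ρ, z ∈ Gd B δ → |z.re| ≤ W → dist (f z) (s z) ≤ δ₁) → AgO B (HP σ ρ) f s) :
    ∃ d₀ : ℝ, 0 < d₀ ∧ ∀ σ ρ : ℝ, (σ = 1 ∨ σ = -1) → ∀ f ∈ S (HP σ ρ), ∀ s ∈ Se, ¬ AgO B (HP σ ρ) f s →
      ∃ ρ' : ℝ, ρ ≤ ρ' ∧ ∀ z ∈ HP σ ρ', z ∈ Gd B δ → |z.re| ≤ W → d₀ ≤ dist (f z) (s z) := by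
  obtain ⟨δ₁, hδ₁, LA⟩ := LA
  by_contra hcon
  push Not at hcon
  have hδ := h.δ_pos
  have hp := h.p_pos
  choose σ ρ hσ f hf s hs hne hbad using fun n : ℕ => hcon (1 / ((n : ℝ) + 1)) (by positivity)
  have hσσ : ∀ n, σ n * σ n = 1 := fun n => sq_one (hσ n)
  -- a point near the section
  have hz : ∀ n : ℕ, ∃ z : ℂ, ρ n + n < σ n * z.im ∧ z ∈ Gd B δ ∧ |z.re| ≤ W ∧ dist (f n z) (s n z) < 1 / ((n : ℝ) + 1) := by
    intro n
    obtain ⟨z, hz, hzG, hzW, hzd⟩ := hbad n (ρ n + n) (by simp)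
    exact ⟨z, hz, hzG, hzW, hzd⟩
  choose z hzh hzG hzW hzd using hz
  -- the first exit
  have hexit : ∀ n : ℕ, ∃ (t : ℝ) (z' : ℂ), σ n * (z n).im ≤ t ∧ t ≤ σ n * z'.im ∧ σ n * z'.im < t + 1 ∧ z' ∈ Gd B δ ∧ |z'.re| ≤ W ∧
      δ₁ < dist (f n z') (s n z') ∧ ∀ w ∈ Gd B δ, |w.re| ≤ W → σ n * (z n).im < σ n * w.im → σ n * w.im < t → dist (f n w) (s n w) ≤ δ₁ := by
    intro n
    set T : Set ℝ := {t | ∃ w ∈ Gd B δ, |w.re| ≤ W ∧ σ n * (z n).im < σ n * w.im ∧ δ₁ < dist (f n w) (s n w) ∧ t = σ n * w.im} with hT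
    have hTne : T.Nonempty := by
      by_contra hemp
      rw [Set.not_nonempty_iff_eq_empty] at hemp
      have h1 : ∀ w ∈ HP (σ n) (σ n * (z n).im), w ∈ Gd B δ → |w.re| ≤ W → dist (f n w) (s n w) ≤ δ₁ := by
        intro w hw hwG hwW
        by_contra h2
        push Not at h2
        have h3 : σ n * w.im ∈ T := ⟨w, hwG, hwW, hw, h2, rfl⟩
        rw [hemp] at h3
        exact h3
      have hle : ρ n ≤ σ n * (z n).im := by
        have h2 := hzh n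
        have h3 : (0 : ℝ) ≤ n := Nat.cast_nonneg n
        linarith
      have h2 := LA (σ n) (σ n * (z n).im) (hσ n) (f n) (h.res_HP hle (hf n)) (s n) (hs n) h1
      exact hne n (h.ag_of_HP (isOpen_HP _ _) (convex_HP _ _) (hf n) (h.res_univ (isOpen_HP _ _) (convex_HP _ _) (hS _ (hs n))) (hσ n)
        (HP_anti hle) h2)
    have hTb : BddBelow T := by
      refine ⟨σ n * (z n).im, ?_⟩
      rintro _ ⟨w, _, _, hw, _, rfl⟩
      exact hw.le
    obtain ⟨_, ⟨w, hwG, hwW, hw1, hw2, rfl⟩, hlt⟩ := exists_lt_of_csInf_lt hTne (lt_add_one (sInf T))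
    refine ⟨sInf T, w, le_csInf hTne ?_, csInf_le hTb ⟨w, hwG, hwW, hw1, hw2, rfl⟩, hlt, hwG, hwW, hw2, ?_⟩
    · rintro _ ⟨w', _, _, hw', _, rfl⟩
      exact hw'.le
    · intro w' hw'G hw'W hw'1 hw'2
      by_contra h2
      push Not at h2
      exact absurd (csInf_le hTb ⟨w', hw'G, hw'W, hw'1, h2, rfl⟩) (not_le.2 hw'2)
  choose t z' hzt htz' hz't hz'G hz'W hz'd hlow using hexit
  choose l hl using fun n => h.exists_int (z' n).im
  set 𝒰 : Ultrafilter ℕ := Filter.hyperfilter ℕ with h𝒰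
  have hle : (𝒰 : Filter ℕ) ≤ atTop := by
    rw [h𝒰, ← Nat.cofinite_eq_atTop]
    exact Filter.hyperfilter_le_cofinite
  have hnlarge : ∀ c : ℝ, ∀ᶠ n : ℕ in (𝒰 : Filter ℕ), c ≤ (n : ℝ) := fun c =>
    hle (tendsto_natCast_atTop_atTop.eventually_ge_atTop c)
  -- the sign and the section are constant
  obtain ⟨σ₀, hσ₀, hσe⟩ : ∃ σ₀ : ℝ, (σ₀ = 1 ∨ σ₀ = -1) ∧ ∀ᶠ n in (𝒰 : Filter ℕ), σ n = σ₀ := by
    have h1 : ∀ᶠ n in (𝒰 : Filter ℕ), σ n = 1 ∨ σ n = -1 := Eventually.of_forall hσ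
    rcases Ultrafilter.eventually_or.1 h1 with h2 | h2
    · exact ⟨1, Or.inl rfl, h2⟩
    · exact ⟨-1, Or.inr rfl, h2⟩
  obtain ⟨s₀, hs₀, hse⟩ : ∃ s₀ ∈ Se, ∀ᶠ n in (𝒰 : Filter ℕ), s n = s₀ := by
    have h1 : ∀ᶠ n in (𝒰 : Filter ℕ), s n ∈ Se := Eventually.of_forall hs
    obtain ⟨s₀, hs₀, h3⟩ := (Ultrafilter.eventually_exists_mem_iff (f := 𝒰) (P := fun s₀ n => s n = s₀) hfin).1
      (h1.mono fun n hn => ⟨s n, hn, rfl⟩)
    exact ⟨s₀, hs₀, h3⟩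
  have hσσ₀ : σ₀ * σ₀ = 1 := sq_one hσ₀
  -- the translates
  have hΩo : ∀ n, IsOpen (Sh p (l n) (HP (σ n) (ρ n))) ∧ Convex ℝ (Sh p (l n) (HP (σ n) (ρ n))) :=
    fun n => ⟨isOpen_sh (isOpen_HP _ _), convex_sh (convex_HP _ _)⟩
  have habs : ∀ n (x : ℝ), |σ n * x| = |x| := by
    intro n x
    rcases hσ n with h1 | h1 <;> rw [h1] <;> simp
  have hhigh : ∀ n, σ n * (z' n).im - p ≤ σ n * (p * l n) ∧ σ n * (p * l n) ≤ σ n * (z' n).im + p := by
    intro n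
    have h1 : |σ n * ((z' n).im - p * l n)| ≤ p := by
      rw [habs]
      exact hl n
    rw [abs_le] at h1
    constructor
    · linarith [h1.2]
    · linarith [h1.1]
  have hex : ∀ R : ℝ, ∀ᶠ n in (𝒰 : Filter ℕ), ball 0 R ⊆ Sh p (l n) (HP (σ n) (ρ n)) := by
    intro R
    filter_upwards [hnlarge (R + p)] with n hn w hw
    show ρ n < σ n * (w + p * l n * Complex.I).im
    rw [add_im, mul_add]
    rw [mem_ball_zero_iff] at hw
    have h1 : -R ≤ σ n * w.im := by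
      have h2 : |σ n * w.im| ≤ R := by
        rw [habs]
        exact (Complex.abs_im_le_norm w).trans hw.le
      exact (abs_le.1 h2).1
    have h2 := (hhigh n).1
    have h3 := hzh n
    have h4 := hzt n
    have h5 := htz' n
    linarith
  have hFS : ∀ᶠ n in (𝒰 : Filter ℕ), tr p (l n) (f n) ∈ S (Sh p (l n) (HP (σ n) (ρ n))) :=
    Eventually.of_forall fun n => h.tr_mem (isOpen_HP _ _) (convex_HP _ _) (hf n) (l n)
  obtain ⟨G, hGS, hG⟩ := h.exists_lim 𝒰 (Ω := fun n => Sh p (l n) (HP (σ n) (ρ n))) (fun n => tr p (l n) (f n)) hΩo hex hFS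
  have hsS := hS s₀ hs₀
  have hΩu : ∀ n : ℕ, IsOpen ((fun _ => Set.univ : ℕ → Set ℂ) n) ∧ Convex ℝ ((fun _ => Set.univ : ℕ → Set ℂ) n) := fun n => ⟨isOpen_univ, convex_univ⟩
  have hexu : ∀ R : ℝ, ∀ᶠ n in (𝒰 : Filter ℕ), ball 0 R ⊆ (fun _ => Set.univ : ℕ → Set ℂ) n :=
    fun R => Eventually.of_forall fun n => Set.subset_univ _
  have hslim : ∀ (w : ℕ → ℂ) (w₀ : ℂ), w₀ ∉ B → Tendsto w 𝒰 (𝓝 w₀) → Tendsto (fun n => s₀ (w n)) 𝒰 (𝓝 (s₀ w₀)) := by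
    intro w w₀ hw₀ hw
    exact h.tendsto_along 𝒰 (Ω := fun _ => Set.univ) (fun _ => s₀) hΩu hexu (Eventually.of_forall fun _ => hsS) (fun z _ => tendsto_const_nhds) hw₀ hw
  have hGlim : ∀ (w : ℕ → ℂ) (w₀ : ℂ), w₀ ∉ B → Tendsto w 𝒰 (𝓝 w₀) → Tendsto (fun n => tr p (l n) (f n) (w n)) 𝒰 (𝓝 (G w₀)) := by
    intro w w₀ hw₀ hw
    exact h.tendsto_along 𝒰 (Ω := fun n => Sh p (l n) (HP (σ n) (ρ n))) (fun n => tr p (l n) (f n)) hΩo hex hFS hG hw₀ hw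
  -- periodicity of the section
  have hper' : ∀ (k : ℤ) (w : ℂ), s₀ (w + p * k * Complex.I) = s₀ w := by
    have hnat : ∀ (k : ℕ) (w : ℂ), s₀ (w + p * (k : ℤ) * Complex.I) = s₀ w := by
      intro k
      induction k with
      | zero => intro w; simp
      | succ k ih =>
        intro w
        have h1 : w + p * ((k + 1 : ℕ) : ℤ) * Complex.I = (w + p * (k : ℤ) * Complex.I) + p * Complex.I := by
          push_cast
          ring
        rw [h1, hper s₀ hs₀, ih]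
    intro k w
    obtain ⟨m, rfl | rfl⟩ := k.eq_nat_or_neg
    · exact hnat m w
    · have h1 := hnat m (w + p * ((-(m : ℤ) : ℤ) : ℂ) * Complex.I)
      have h2 : w + p * ((-(m : ℤ) : ℤ) : ℂ) * Complex.I + p * ((m : ℤ) : ℂ) * Complex.I = w := by
        push_cast
        ring
      rw [h2] at h1
      exact h1.symm
  -- limits of bounded sequences of good points
  have hbdd : ∀ (M : ℝ) (w : ℕ → ℂ), (∀ n, w n ∈ Gd B δ ∧ |(w n).re| ≤ W) → (∀ᶠ n in (𝒰 : Filter ℕ), |(w n).im - p * l n| ≤ M) →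
      ∃ w₀ : ℂ, w₀ ∉ B ∧ Tendsto (fun n => w n + p * ((-l n : ℤ) : ℂ) * Complex.I) 𝒰 (𝓝 w₀) := by
    intro M w hw hM
    have h1 : ∀ᶠ n in (𝒰 : Filter ℕ), w n + p * ((-l n : ℤ) : ℂ) * Complex.I ∈ Gd B δ ∩ closedBall (0 : ℂ) (W + M) := by
      filter_upwards [hM] with n hn
      refine ⟨(h.gd_add δ (-l n)).mpr (hw n).1, ?_⟩
      rw [mem_closedBall, dist_zero_right]
      refine (Complex.norm_le_abs_re_add_abs_im _).trans ?_
      rw [add_re, add_im]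
      have h2 : (w n).im + p * ((-l n : ℤ) : ℝ) = (w n).im - p * l n := by
        push_cast
        ring
      rw [h2]
      exact add_le_add (hw n).2 hn
    have hcpt : IsCompact (Gd B δ ∩ closedBall (0 : ℂ) (W + M)) := (isCompact_closedBall 0 _).inter_left (isClosed_gd δ)
    have h2 : ((𝒰.map fun n => w n + p * ((-l n : ℤ) : ℂ) * Complex.I : Ultrafilter ℂ) : Filter ℂ) ≤ 𝓟 (Gd B δ ∩ closedBall (0 : ℂ) (W + M)) := by
      rw [Filter.le_principal_iff]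
      exact h1
    obtain ⟨w₀, hw₀, h3⟩ := hcpt.ultrafilter_le_nhds _ h2
    exact ⟨w₀, gd_notMem hδ hw₀.1, h3⟩
  have htr : ∀ (n : ℕ) (w : ℂ), tr p (l n) (f n) (w + p * ((-l n : ℤ) : ℂ) * Complex.I) = f n w := by
    intro n w
    have h1 : w + p * ((-l n : ℤ) : ℂ) * Complex.I + p * l n * Complex.I = w := by
      push_cast
      ring
    show f n (w + p * ((-l n : ℤ) : ℂ) * Complex.I + p * l n * Complex.I) = f n w
    rw [h1]
  -- the exit point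
  obtain ⟨w', hw'B, hw'⟩ := hbdd p z' (fun n => ⟨hz'G n, hz'W n⟩) (Eventually.of_forall hl)
  have hdist : δ₁ ≤ dist (G w') (s₀ w') := by
    have h1 : Tendsto (fun n => dist (tr p (l n) (f n) (z' n + p * ((-l n : ℤ) : ℂ) * Complex.I)) (s₀ (z' n + p * ((-l n : ℤ) : ℂ) * Complex.I))) 𝒰
        (𝓝 (dist (G w') (s₀ w'))) := (hGlim _ w' hw'B hw').dist (hslim _ w' hw'B hw')
    refine ge_of_tendsto h1 ?_
    filter_upwards [hse] with n hn
    rw [htr, hper', ← hn]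
    exact (hz'd n).le
  have hno : ¬ AgO B Set.univ G s₀ := by
    intro h1
    rw [h1 w' (Set.mem_univ _) hw'B, dist_self] at hdist
    linarith
  by_cases hM : ∃ M : ℝ, ∀ᶠ n in (𝒰 : Filter ℕ), t n - σ n * (z n).im ≤ M
  · -- bounded distance: `G` meets the section
    obtain ⟨M, hM⟩ := hM
    obtain ⟨w, hwB, hw⟩ := hbdd (M + 1 + p) z (fun n => ⟨hzG n, hzW n⟩) (by
      filter_upwards [hM] with n hn
      have h1 : |(z n).im - p * l n| ≤ |(z n).im - (z' n).im| + |(z' n).im - p * l n| := abs_sub_le _ _ _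
      have h2 : |(z n).im - (z' n).im| ≤ M + 1 := by
        rw [← habs n, mul_sub, abs_le]
        have h3 := hzt n
        have h4 := htz' n
        have h5 := hz't n
        constructor <;> linarith
      linarith [hl n])
    refine hno (hdis G hGS s₀ hs₀ w hwB ?_)
    have h1 : Tendsto (fun n => dist (tr p (l n) (f n) (z n + p * ((-l n : ℤ) : ℂ) * Complex.I)) (s₀ (z n + p * ((-l n : ℤ) : ℂ) * Complex.I))) 𝒰
        (𝓝 (dist (G w) (s₀ w))) := (hGlim _ w hwB hw).dist (hslim _ w hwB hw)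
    have h2 : Tendsto (fun n : ℕ => 1 / ((n : ℝ) + 1)) 𝒰 (𝓝 0) := tendsto_one_div_add_atTop_nhds_zero_nat.mono_left hle
    have h3 : dist (G w) (s₀ w) ≤ 0 := by
      refine le_of_tendsto_of_tendsto h1 h2 ?_
      filter_upwards [hse] with n hn
      rw [htr, hper', ← hn]
      exact (hzd n).le
    exact dist_le_zero.1 h3
  · -- unbounded distance: `G` is close to the section on the opposite half plane
    push Not at hM
    have hfar : ∀ M : ℝ, ∀ᶠ n in (𝒰 : Filter ℕ), M < t n - σ n * (z n).im := hM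
    have hcl : ∀ w ∈ HP (-σ₀) (1 + p), w ∈ Gd B δ → |w.re| ≤ W → dist (G w) (s₀ w) ≤ δ₁ := by
      intro w hw hwG hwW
      have hwB := gd_notMem hδ hwG
      have h1 : Tendsto (fun n => dist (tr p (l n) (f n) w) (s₀ w)) 𝒰 (𝓝 (dist (G w) (s₀ w))) := (hG w hwB).dist tendsto_const_nhds
      refine le_of_tendsto h1 ?_
      have hw' : 1 + p < -σ₀ * w.im := hw
      filter_upwards [hse, hσe, hfar (p - σ₀ * w.im)] with n hn hn2 hn3
      have h2 := hlow n (w + p * l n * Complex.I) ((h.gd_add δ (l n)).mpr hwG) (by rwa [add_re]) ?_ ?_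
      · rw [hn, hper'] at h2
        exact h2
      · rw [add_im, mul_add]
        have h3 := (hhigh n).1
        have h4 := htz' n
        rw [hn2] at *
        linarith
      · rw [add_im, mul_add]
        have h3 := (hhigh n).2
        have h4 := hz't n
        rw [hn2] at *
        linarith
    have hσ' : -σ₀ = 1 ∨ -σ₀ = -1 := by
      rcases hσ₀ with h1 | h1 <;> rw [h1] <;> simp
    have h2 := LA (-σ₀) (1 + p) hσ' G (h.res_univ (isOpen_HP _ _) (convex_HP _ _) hGS) s₀ hs₀ hcl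
    exact hno (h.ag_of_HP isOpen_univ convex_univ hGS hsS hσ' (Set.subset_univ _) h2)

/-- `LA`: a member close to a section on a half plane is the section; `LH`: two members which are away from the sections and close to each other are equal. -/
theorem half_of (h : HD0 K p B δ W S) (Se : Set (ℂ → Y)) (hfin : Se.Finite) (hS : ∀ s ∈ Se, s ∈ S Set.univ)
    (hper : ∀ s ∈ Se, ∀ z, s (z + p * Complex.I) = s z)
    (hdis : ∀ f ∈ S Set.univ, ∀ s ∈ Se, ∀ z, z ∉ B → f z = s z → AgO B Set.univ f s)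
    (LA : ∃ δ₁ : ℝ, 0 < δ₁ ∧ ∀ σ ρ : ℝ, (σ = 1 ∨ σ = -1) → ∀ f ∈ S (HP σ ρ), ∀ s ∈ Se,
      (∀ z ∈ HP σ ρ, z ∈ Gd B δ → |z.re| ≤ W → dist (f z) (s z) ≤ δ₁) → AgO B (HP σ ρ) f s)
    (LH : ∀ δ₀ : ℝ, 0 < δ₀ → ∃ ε : ℝ, 0 < ε ∧ ∀ σ ρ : ℝ, (σ = 1 ∨ σ = -1) → ∀ f ∈ S (HP σ ρ), ∀ g ∈ S (HP σ ρ),
      (∀ z ∈ HP σ ρ, z ∈ Gd B δ → |z.re| ≤ W → (∀ s ∈ Se, δ₀ ≤ dist (f z) (s z) ∧ δ₀ ≤ dist (g z) (s z)) ∧ dist (f z) (g z) ≤ ε) →
      AgO B (HP σ ρ) f g) :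
    HDyn K p B δ W S := by
  obtain ⟨d₀, hd₀, haway⟩ := away_sec h Se hfin hS hper hdis LA
  obtain ⟨δ₁, hδ₁, LA⟩ := LA
  obtain ⟨ε₁, hε₁, LH⟩ := LH d₀ hd₀
  have hδ := h.δ_pos
  refine ⟨h.compact, h.p_pos, h.δ_pos, h.W_pos, h.B_inv, h.B_sep, h.B_re, h.anti, h.mem, h.lip, h.trans, h.lim, h.uniq,
    min δ₁ ε₁, lt_min hδ₁ hε₁, fun σ ρ hσ f hf g hg hfg => ?_⟩
  -- one of the two is a section
  have hsec : ∀ f ∈ S (HP σ ρ), ∀ g ∈ S (HP σ ρ), (∀ z ∈ HP σ ρ, z ∈ Gd B δ → |z.re| ≤ W → dist (f z) (g z) ≤ min δ₁ ε₁) →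
      (∃ s ∈ Se, AgO B (HP σ ρ) f s) → AgO B (HP σ ρ) f g := by
    rintro f hf g hg hfg ⟨s, hs, hfs⟩
    have h1 : AgO B (HP σ ρ) g s := by
      refine LA σ ρ hσ g hg s hs fun z hz hzG hzW => ?_
      rw [← hfs z hz (gd_notMem hδ hzG), dist_comm]
      exact (hfg z hz hzG hzW).trans (min_le_left _ _)
    intro z hz hzB
    rw [hfs z hz hzB, h1 z hz hzB]
  by_cases h1 : ∃ s ∈ Se, AgO B (HP σ ρ) f s
  · exact hsec f hf g hg hfg h1
  by_cases h2 : ∃ s ∈ Se, AgO B (HP σ ρ) g s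
  · have h3 := hsec g hg f hf (fun z hz hzG hzW => by rw [dist_comm]; exact hfg z hz hzG hzW) h2
    exact fun z hz hzB => (h3 z hz hzB).symm
  push Not at h1 h2
  -- a common smaller half plane
  have hcommon : ∃ ρ' : ℝ, ρ ≤ ρ' ∧ ∀ z ∈ HP σ ρ', z ∈ Gd B δ → |z.re| ≤ W → ∀ s ∈ Se, d₀ ≤ dist (f z) (s z) ∧ d₀ ≤ dist (g z) (s z) := by
    have h3 : ∀ s ∈ Se, ∃ ρ' : ℝ, ρ ≤ ρ' ∧ ∀ z ∈ HP σ ρ', z ∈ Gd B δ → |z.re| ≤ W → d₀ ≤ dist (f z) (s z) ∧ d₀ ≤ dist (g z) (s z) := by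
      intro s hs
      obtain ⟨a, ha, ha2⟩ := haway σ ρ hσ f hf s hs (h1 s hs)
      obtain ⟨b, hb, hb2⟩ := haway σ ρ hσ g hg s hs (h2 s hs)
      refine ⟨max a b, ha.trans (le_max_left _ _), fun z hz hzG hzW => ⟨ha2 z (HP_anti (le_max_left _ _) hz) hzG hzW, hb2 z (HP_anti (le_max_right _ _) hz) hzG hzW⟩⟩
    choose! r hr hr2 using h3
    obtain ⟨M, hM⟩ := (hfin.image r).bddAbove
    refine ⟨max ρ M, le_max_left _ _, fun z hz hzG hzW s hs => ?_⟩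
    exact hr2 s hs z (HP_anti ((hM (Set.mem_image_of_mem r hs)).trans (le_max_right _ _)) hz) hzG hzW
  obtain ⟨ρ', hρ', hcommon⟩ := hcommon
  have h4 := LH σ ρ' hσ f (h.res_HP hρ' hf) g (h.res_HP hρ' hg) fun z hz hzG hzW =>
    ⟨hcommon z hz hzG hzW, (hfg z (HP_anti hρ' hz) hzG hzW).trans (min_le_right _ _)⟩
  exact h.ag_of_HP (isOpen_HP _ _) (convex_HP _ _) hf hg hσ (HP_anti hρ') h4

end Pool.Agent.H62.LR
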