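import Pool.Agent.H87.LR.LimGen
import Pool.Agent.H46.LR.Sc

/-!
# LR Hd0: the family `Sc` has the elementary properties
-/

set_option autoImplicit false

open Topology Filter Metric

noncomputable section

namespace Pool.Agent.H62.LR

open Pool.Agent.H36.BP (EN)
open Pool.Agent.H62.EF (MN pr)

variable {p : ℝ} {B : Set ℂ} {δ W : ℝ} {𝓛 : Set (ℂ → ℂ)} {C A : Set ℂ}

theorem sec_finite (h : BaseD p B δ W 𝓛 C A) : (Sec 𝓛).Finite := by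
  unfold Sec
  exact (Set.toFinite _).union (h.sub.finite.image _)

/-- the field `lim` of `HD0` -/
theorem sc_lim (h : BaseD p B δ W 𝓛 C A) (𝒰 : Ultrafilter ℕ) (Ω : ℕ → Set ℂ) (F : ℕ → ℂ → MN 1) (f : ℂ → MN 1)
    (_hΩ : ∀ n, IsOpen (Ω n) ∧ Convex ℝ (Ω n)) (hex : ∀ R : ℝ, ∀ᶠ n in (𝒰 : Filter ℕ), ball 0 R ⊆ Ω n)
    (hF : ∀ᶠ n in (𝒰 : Filter ℕ), F n ∈ Sc B 𝓛 C A (Ω n)) (hf : ∀ z, z ∉ B → Tendsto (fun n => F n z) 𝒰 (𝓝 (f z))) :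
    f ∈ Sc B 𝓛 C A Set.univ := by
  have hpt : ∀ z : ℂ, ∀ᶠ n in (𝒰 : Filter ℕ), z ∈ Ω n := fun z => (hex (‖z‖ + 1)).mono fun n hn => hn (by rw [mem_ball_zero_iff]; linarith)
  have hF' : ∀ᶠ n in (𝒰 : Filter ℕ), (∃ s ∈ Sec 𝓛, ∀ z ∈ Ω n, z ∉ B → F n z = s z) ∨ ∃ g ∈ Tm B 𝓛 C A (Ω n), ∀ z ∈ Ω n, z ∉ B → F n z = kp (g z) := hF
  rcases Ultrafilter.eventually_or.1 hF' with h1 | h1
  · obtain ⟨s, hs, h2⟩ := (Ultrafilter.eventually_exists_mem_iff (f := 𝒰) (P := fun s n => ∀ z ∈ Ω n, z ∉ B → F n z = s z) (sec_finite h)).1 h1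
    left
    refine ⟨s, hs, fun z _ hzB => ?_⟩
    have h3 : Tendsto (fun n => F n z) 𝒰 (𝓝 (s z)) := by
      refine tendsto_const_nhds.congr' ?_
      filter_upwards [h2, hpt z] with n hn hn2
      exact (hn z hn2 hzB).symm
    exact tendsto_nhds_unique (hf z hzB) h3
  · have h2 : ∀ n, ∃ g : ℂ → ℂ, (∃ g ∈ Tm B 𝓛 C A (Ω n), ∀ z ∈ Ω n, z ∉ B → F n z = kp (g z)) →
        g ∈ Tm B 𝓛 C A (Ω n) ∧ ∀ z ∈ Ω n, z ∉ B → F n z = kp (g z) := by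
      intro n
      by_cases h3 : ∃ g ∈ Tm B 𝓛 C A (Ω n), ∀ z ∈ Ω n, z ∉ B → F n z = kp (g z)
      · obtain ⟨g, hg, hg2⟩ := h3
        exact ⟨g, fun _ => ⟨hg, hg2⟩⟩
      · exact ⟨0, fun h4 => absurd h4 h3⟩
    choose X hX using h2
    have hXe : ∀ᶠ n in (𝒰 : Filter ℕ), X n ∈ Tm B 𝓛 C A (Ω n) ∧ ∀ z ∈ Ω n, z ∉ B → F n z = kp (X n z) := h1.mono fun n hn => hX n hn
    have hconv : ∀ z, z ∉ B → Tendsto (fun n => kp (X n z)) 𝒰 (𝓝 (f z)) := by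
      intro z hzB
      refine (hf z hzB).congr' ?_
      filter_upwards [hXe, hpt z] with n hn hn2
      exact hn.2 z hn2 hzB
    have hXQ : ∀ Q : Set ℂ, Q ⊆ Set.univ → IsCompact Q → ∀ᶠ n in (𝒰 : Filter ℕ), ∃ V : Set ℂ, IsOpen V ∧ Q ⊆ V ∧ X n ∈ Tm B 𝓛 C A V := by
      intro Q _ hQ
      obtain ⟨R, hR⟩ := hQ.isBounded.subset_ball 0
      filter_upwards [hXe, hex R] with n hn hn2
      exact ⟨Ω n, (_hΩ n).1, hR.trans hn2, hn.1⟩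
    rcases lim_gen h 𝒰 isOpen_univ convex_univ X hXQ with ⟨s, hs, h3⟩ | ⟨g, hg, h3⟩
    · left
      exact ⟨s, hs, fun z hz hzB => tendsto_nhds_unique (hconv z hzB) (h3 z hz hzB)⟩
    · right
      exact ⟨g, hg, fun z hz hzB => tendsto_nhds_unique (hconv z hzB) ((continuous_kp.tendsto _).comp (h3 z hz hzB))⟩

theorem hd0 (h : BaseD p B δ W 𝓛 C A) : HD0 (closedBall (0 : MN 1) 1) p B δ W (Sc B 𝓛 C A) where
  compact := sc_compact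
  p_pos := h.p_pos
  δ_pos := h.δ_pos
  W_pos := h.W_pos
  B_inv := h.B_inv
  B_sep := h.B_sep
  B_re := h.B_re
  anti := fun _ _ _ _ _ _ hsub => sc_anti hsub
  mem := fun _ _ _ _ hf _ hz hzB => sc_mem hf hz hzB
  lip := by
    intro δ' R hδ'
    obtain ⟨L, hL, hl⟩ := sc_lip h δ' hδ'
    exact ⟨L, hL, fun Ω _ _ f hf z hz _ hzΩ w hw => hl Ω f hf z hz hzΩ w hw⟩
  trans := fun _ _ _ _ hf l => sc_trans h hf l
  lim := fun 𝒰 Ω F f hΩ hex hF hf => sc_lim h 𝒰 Ω F f hΩ hex hF hf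
  uniq := fun _ hΩ hΩc _ hf _ hg _ hz₀ _ hfr => sc_uniq h hΩ hΩc.isPreconnected hf hg hz₀ hfr

end Pool.Agent.H62.LR
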