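import Pool.Agent.H62.LR.LogFn
import Pool.Agent.H46.LR.Sc

/-!
# LR LB: bounds for `L` at the good points of the strip, small tools
-/

set_option autoImplicit false

open Topology Filter Metric

noncomputable section

namespace Pool.Agent.H62.LR

open Pool.Agent.H87.LU

variable {p : ℝ} {B : Set ℂ} {δ W : ℝ} {𝓛 : Set (ℂ → ℂ)} {C A : Set ℂ}

/-- the section `L` is bounded and bounded away from `0` at the good points of the strip -/
theorem BaseD.L_bound (h : BaseD p B δ W 𝓛 C A) {L : ℂ → ℂ} (hL : L ∈ 𝓛) : ∃ K : ℝ, 1 ≤ K ∧ ∀ z ∈ Gd B δ, |z.re| ≤ W → ‖L z‖ ≤ K ∧ ‖L z‖⁻¹ ≤ K := by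
  have hδ := h.δ_pos
  have hp := h.p_pos
  set Q : Set ℂ := Gd B δ ∩ closedBall (0 : ℂ) (W + p) with hQ
  have hcpt : IsCompact Q := (isCompact_closedBall 0 _).inter_left (isClosed_gd δ)
  have hc : ContinuousOn (fun z => ‖L z‖ + ‖L z‖⁻¹) Q := by
    intro z hz
    have h1 := h.L_an L hL z (gd_notMem hδ hz.1)
    have h2 : ContinuousAt (fun z => ‖L z‖) z := h1.1.continuousAt.norm
    exact (h2.add (h2.inv₀ (norm_ne_zero_iff.2 h1.2.1))).continuousWithinAt
  obtain ⟨K, hK⟩ := (hcpt.image_of_continuousOn hc).isBounded.bddAbove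
  refine ⟨max K 1, le_max_right _ _, fun z hz hzW => ?_⟩
  obtain ⟨l, hl⟩ : ∃ l : ℤ, |z.im - p * l| ≤ p := by
    refine ⟨⌊z.im / p⌋, ?_⟩
    have h1 := Int.floor_le (z.im / p)
    have h2 := Int.lt_floor_add_one (z.im / p)
    rw [le_div_iff₀ hp] at h1
    rw [div_lt_iff₀ hp] at h2
    rw [abs_of_nonneg (by nlinarith)]
    nlinarith
  set w : ℂ := z + p * ((-l : ℤ) : ℂ) * Complex.I with hw
  have hwG : w ∈ Gd B δ := by
    intro b hb
    have h1 := hz (b + p * l * Complex.I) (h.B_inv b hb l)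
    have h2 : w - b = z - (b + p * l * Complex.I) := by
      rw [hw]
      push_cast
      ring
    rwa [h2]
  have hwQ : w ∈ Q := by
    refine ⟨hwG, ?_⟩
    rw [mem_closedBall, dist_zero_right]
    refine (Complex.norm_le_abs_re_add_abs_im w).trans ?_
    rw [hw, add_re, add_im]
    have h2 : z.im + p * ((-l : ℤ) : ℝ) = z.im - p * l := by
      push_cast
      ring
    rw [h2]
    exact add_le_add hzW hl
  have h3 : ‖L w‖ + ‖L w‖⁻¹ ≤ K := hK (Set.mem_image_of_mem _ hwQ)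
  rw [hw, L_add h hL] at h3
  have h4 : 0 ≤ ‖L z‖ := norm_nonneg _
  have h5 : 0 ≤ ‖L z‖⁻¹ := by positivity
  exact ⟨by linarith [le_max_left K 1], by linarith [le_max_left K 1]⟩

/-- a small logarithm of `1` is `0` -/
theorem eq_zero_of_exp {w : ℂ} (h1 : Complex.exp w = 1) (h2 : ‖w‖ < 2 * Real.pi) : w = 0 := by
  obtain ⟨n, hn⟩ := Complex.exp_eq_one_iff.1 h1
  have h3 : ‖w‖ = |(n : ℝ)| * (2 * Real.pi) := by
    rw [hn, norm_mul, norm_mul, norm_mul, Complex.norm_I, mul_one, Complex.norm_real, Real.norm_of_nonneg Real.pi_pos.le, Complex.norm_intCast]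
    norm_num
  have hn0 : n = 0 := by
    by_contra hne
    have h4 : (1 : ℝ) ≤ |(n : ℝ)| := by
      rw [← Int.cast_abs]
      exact_mod_cast Int.one_le_abs hne
    rw [h3] at h2
    nlinarith [Real.pi_pos]
  rw [hn, hn0, Int.cast_zero, zero_mul]

/-- a good point in every half plane -/
theorem BaseD.exists_pt (h : BaseD p B δ W 𝓛 C A) {σ : ℝ} (hσ : σ = 1 ∨ σ = -1) (ρ : ℝ) : ∃ z ∈ HP σ ρ, z ∉ B := by
  have hσσ : σ * σ = 1 := by rcases hσ with rfl | rfl <;> norm_num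
  refine ⟨(W : ℂ) + ((σ * (ρ + 1) : ℝ) : ℂ) * Complex.I, ?_, ?_⟩
  · show ρ < σ * ((W : ℂ) + ((σ * (ρ + 1) : ℝ) : ℂ) * Complex.I).im
    have h1 : ((W : ℂ) + ((σ * (ρ + 1) : ℝ) : ℂ) * Complex.I).im = σ * (ρ + 1) := by simp
    rw [h1, ← mul_assoc, hσσ]
    linarith
  · intro hB
    have h1 := h.B_re _ hB
    have h2 : ((W : ℂ) + ((σ * (ρ + 1) : ℝ) : ℂ) * Complex.I).re = W := by simp
    rw [h2, abs_of_pos h.W_pos] at h1
    linarith [h.δ_pos]

/-- the section `L` is analytic at all translates of `b₀`, with the same value -/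
theorem BaseD.L_at (h : BaseD p B δ W 𝓛 C A) {L : ℂ → ℂ} (hL : L ∈ 𝓛) {b₀ : ℂ} (hLa : AnalyticAt ℂ L b₀) (l : ℤ) :
    AnalyticAt ℂ L (b₀ + p * l * Complex.I) ∧ L (b₀ + p * l * Complex.I) = L b₀ := by
  refine ⟨?_, L_add h hL l b₀⟩
  have h1 : L = fun z => L (z + p * ((-l : ℤ) : ℂ) * Complex.I) := by
    funext z
    exact (L_add h hL (-l) z).symm
  rw [h1]
  refine an_add (f := L) (c := p * ((-l : ℤ) : ℂ) * Complex.I) ?_
  have h2 : b₀ + p * l * Complex.I + p * ((-l : ℤ) : ℂ) * Complex.I = b₀ := by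
    push_cast
    ring
  rwa [h2]

end Pool.Agent.H62.LR
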