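import Pool.Agent.H62.LR.EndG
import Pool.Agent.H87.LR.LB

/-!
# LR LAN: case (N), no member is near the section `0`
-/

set_option autoImplicit false

open Topology Filter Metric

noncomputable section

namespace Pool.Agent.H62.LR

open Pool.Agent.H87.LU

variable {p : ℝ} {B : Set ℂ} {δ W : ℝ} {𝓛 : Set (ℂ → ℂ)} {C A : Set ℂ}

/-- growth of a sum -/
theorem log_add_le {x y a b : ℝ} (hx : 0 ≤ x) (hy : 0 ≤ y) (hxa : Real.log x ≤ a) (hyb : Real.log y ≤ b) (ha : 0 ≤ a) (hb : 0 ≤ b) :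
    Real.log (x + y) ≤ 1 + a + b := by
  have h1 : x ≤ Real.exp a := by
    rcases hx.eq_or_lt with h0 | h0
    · rw [← h0]
      exact (Real.exp_pos a).le
    · rwa [← Real.log_le_iff_le_exp h0]
  have h2 : y ≤ Real.exp b := by
    rcases hy.eq_or_lt with h0 | h0
    · rw [← h0]
      exact (Real.exp_pos b).le
    · rwa [← Real.log_le_iff_le_exp h0]
  rcases (add_nonneg hx hy).eq_or_lt with h0 | h0
  · rw [← h0, Real.log_zero]
    positivity
  · rw [Real.log_le_iff_le_exp h0]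
    have ha1 := Real.one_le_exp ha
    have hb1 := Real.one_le_exp hb
    have he : 2 ≤ Real.exp 1 := by
      have := Real.add_one_le_exp (1 : ℝ)
      linarith
    have h3 : Real.exp a + Real.exp b ≤ 2 * (Real.exp a * Real.exp b) := by nlinarith
    rw [Real.exp_add, Real.exp_add]
    have h4 : 0 ≤ Real.exp a * Real.exp b := by positivity
    nlinarith

/-- Case (N): no member is near the section `0`. -/
theorem la_N (h : BaseD p B δ W 𝓛 ∅ A) {L : ℂ → ℂ} (hL : L ∈ 𝓛) {b₀ : ℂ} (hb₀ : b₀ ∈ B) (hLa : AnalyticAt ℂ L b₀) (hL1 : L b₀ = 1) :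
    ∃ ε : ℝ, 0 < ε ∧ ∀ σ ρ : ℝ, (σ = 1 ∨ σ = -1) → ∀ f ∈ Tm B 𝓛 ∅ A (HP σ ρ), ¬ ∀ z ∈ HP σ ρ, z ∈ Gd B δ → |z.re| ≤ W → ‖f z‖ ≤ ε := by
  have hδ := h.δ_pos
  have hp := h.p_pos
  obtain ⟨K, hK1, hK⟩ := h.L_bound hL
  obtain ⟨ML, hML, hLg⟩ := h.L_grow L hL
  refine ⟨1 / (8 * K ^ 2), by positivity, fun σ ρ hσ f hf hsmall => ?_⟩
  have hε8 : 1 / (8 * K ^ 2) ≤ 1 / 8 := by
    rw [div_le_div_iff₀ (by positivity) (by norm_num)]
    nlinarith
  have hfan : ∀ z ∈ HP σ ρ, z ∉ B → AnalyticAt ℂ f z ∧ f z ≠ 0 ∧ f z ≠ 1 ∧ f z ≠ L z := fun z hz hzB =>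
    ⟨(hf.2.1 z hz hzB).1, (hf.2.1 z hz hzB).2.1, (hf.2.1 z hz hzB).2.2.1, (hf.2.1 z hz hzB).2.2.2 L hL⟩
  have hLan : ∀ z, z ∉ B → AnalyticAt ℂ L z ∧ L z ≠ 0 ∧ L z ≠ 1 := h.L_an L hL
  set Q : ℂ → ℂ := fun z => (L z - f z) / (L z * (1 - f z)) with hQ
  have hQm : ∀ z ∈ HP σ ρ, MeromorphicAt Q z := fun z hz =>
    ((h.L_mer L hL z).sub (hf.1 z hz)).div ((h.L_mer L hL z).mul ((MeromorphicAt.const 1 z).sub (hf.1 z hz)))
  have hQa : ∀ z ∈ HP σ ρ, z ∉ B → AnalyticAt ℂ Q z ∧ Q z ≠ 0 := by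
    intro z hz hzB
    obtain ⟨h1, h2, h3, h4⟩ := hfan z hz hzB
    obtain ⟨h5, h6, h7⟩ := hLan z hzB
    have h8 : L z * (1 - f z) ≠ 0 := mul_ne_zero h6 (sub_ne_zero.2 h3.symm)
    exact ⟨(h5.sub h1).div (h5.mul (analyticAt_const.sub h1)) h8, div_ne_zero (sub_ne_zero.2 h4.symm) h8⟩
  have hone : ∀ z ∈ HP σ ρ, z ∈ Gd B δ → |z.re| ≤ W → ‖Q z - 1‖ ≤ 1 / 2 := by
    intro z hz hzG hzW
    have hzB := gd_notMem hδ hzG
    obtain ⟨h1, h2, h3, h4⟩ := hfan z hz hzB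
    obtain ⟨h5, h6, h7⟩ := hLan z hzB
    obtain ⟨hk1, hk2⟩ := hK z hzG hzW
    have hs := hsmall z hz hzG hzW
    have h1f : 1 - f z ≠ 0 := sub_ne_zero.2 h3.symm
    have h8 : Q z - 1 = f z * (L z - 1) * (L z)⁻¹ * (1 - f z)⁻¹ := by
      rw [hQ]
      simp only
      field_simp
      ring
    have h9 : ‖(1 - f z)⁻¹‖ ≤ 8 / 7 := by
      rw [norm_inv]
      have h10 : 7 / 8 ≤ ‖1 - f z‖ := by
        have := norm_sub_norm_le (1 : ℂ) (f z)
        rw [norm_one] at this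
        linarith
      rw [inv_le_comm₀ (by linarith) (by norm_num)]
      linarith
    have h11 : ‖L z - 1‖ ≤ K + 1 := by
      have := norm_sub_le (L z) 1
      rw [norm_one] at this
      linarith
    rw [h8, norm_mul, norm_mul, norm_mul, norm_inv (L z)]
    calc ‖f z‖ * ‖L z - 1‖ * ‖L z‖⁻¹ * ‖(1 - f z)⁻¹‖ ≤ 1 / (8 * K ^ 2) * (K + 1) * K * (8 / 7) := by gcongr
      _ ≤ 1 / (8 * K ^ 2) * (2 * K) * K * (8 / 7) := by
          gcongr
          linarith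
      _ = 2 / 7 := by
          field_simp
      _ ≤ 1 / 2 := by norm_num
  -- growth
  obtain ⟨Mf, hMf, hfg⟩ := end_growth h hσ (X := f) (fun z hz hzB => ⟨(hfan z hz hzB).1, (hfan z hz hzB).2.1, (hfan z hz hzB).2.2.1⟩) hsmall
  obtain ⟨Mg, hMg, hgg⟩ := end_growth h hσ (X := fun z => (1 - f z)⁻¹) (fun z hz hzB => by
    obtain ⟨h1, h2, h3, h4⟩ := hfan z hz hzB
    have h1f : 1 - f z ≠ 0 := sub_ne_zero.2 h3.symm
    refine ⟨(analyticAt_const.sub h1).inv h1f, inv_ne_zero h1f, fun h5 => h2 ?_⟩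
    rw [inv_eq_one] at h5
    linear_combination -h5) (M₀ := 8 / 7) (fun z hz hzG hzW => by
    rw [norm_inv]
    have hs := hsmall z hz hzG hzW
    have h10 : 7 / 8 ≤ ‖1 - f z‖ := by
      have := norm_sub_norm_le (1 : ℂ) (f z)
      rw [norm_one] at this
      linarith
    rw [inv_le_comm₀ (by linarith) (by norm_num)]
    linarith)
  have hsub3 : HP σ (ρ + 3) ⊆ HP σ ρ := HP_anti (by linarith)
  have hWend : ∀ z : ℂ, W < |z.re| → z ∉ B := by
    intro z hzW hzB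
    have := h.B_re z hzB
    linarith
  have hQg : ∀ z ∈ HP σ (ρ + 3), W < |z.re| → Real.log ‖Q z‖ ≤ (1 + 2 * ML + Mf + Mg) * (1 + ‖z‖) ^ 8 := by
    intro z hz hzW
    have hzB := hWend z hzW
    obtain ⟨h1, h2, h3, h4⟩ := hfan z (hsub3 hz) hzB
    obtain ⟨h5, h6, h7⟩ := hLan z hzB
    have hg1 := hfg z hz hzW
    have hg2 := hgg z hz hzW
    have hg3 := abs_le.1 (hLg z (by linarith))
    have h1f : 1 - f z ≠ 0 := sub_ne_zero.2 h3.symm
    have hn1 : 0 < ‖L z - f z‖ := norm_pos_iff.2 (sub_ne_zero.2 h4.symm)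
    have hn2 : 0 < ‖L z‖ := norm_pos_iff.2 h6
    have hn3 : 0 < ‖1 - f z‖ := norm_pos_iff.2 h1f
    have hz1 : 1 ≤ 1 + ‖z‖ := by linarith [norm_nonneg z]
    have hp8 : 1 + ‖z‖ ≤ (1 + ‖z‖) ^ 8 := le_self_pow₀ hz1 (by norm_num)
    have hlogQ : Real.log ‖Q z‖ = Real.log ‖L z - f z‖ - Real.log ‖L z‖ + Real.log ‖(1 - f z)⁻¹‖ := by
      rw [hQ]
      simp only
      rw [norm_div, norm_mul, Real.log_div hn1.ne' (mul_pos hn2 hn3).ne', Real.log_mul hn2.ne' hn3.ne', norm_inv, Real.log_inv]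
      ring
    have hsum : Real.log ‖L z - f z‖ ≤ 1 + ML * (1 + ‖z‖) + Mf * (1 + ‖z‖) ^ 8 := by
      have h8 : Real.log ‖L z - f z‖ ≤ Real.log (‖L z‖ + ‖f z‖) := Real.log_le_log hn1 (norm_sub_le _ _)
      refine h8.trans (log_add_le hn2.le (norm_nonneg _) hg3.2 hg1 (by positivity) (by positivity))
    rw [hlogQ]
    have h9 : ML * (1 + ‖z‖) ≤ ML * (1 + ‖z‖) ^ 8 := mul_le_mul_of_nonneg_left hp8 hML
    have h10 : (1 : ℝ) ≤ (1 + ‖z‖) ^ 8 := hz1.trans hp8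
    nlinarith [hg3.1]
  obtain ⟨J, ρ', M', k', hρ', hM', hJd, hJe, hJ2, hJg⟩ := log_fn h hσ (ρ := ρ + 3) (fun z hz => hQm z (hsub3 hz)) (fun z hz => hQa z (hsub3 hz))
    (fun z hz => hone z (hsub3 hz)) (M := 1 + 2 * ML + Mf + Mg) (k := 8) (by positivity) hQg
  have hsub' : HP σ ρ' ⊆ HP σ ρ := HP_anti (by linarith)
  have hsub'' : HP σ (ρ' + 4 * δ) ⊆ HP σ ρ' := HP_anti (by linarith)
  -- the zeros
  have hzero : ∀ l : ℤ, b₀ + p * l * Complex.I ∈ HP σ (ρ' + 4 * δ) → J (b₀ + p * l * Complex.I) = 0 := by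
    intro l hl
    set b : ℂ := b₀ + p * l * Complex.I with hb
    have hbB : b ∈ B := h.B_inv b₀ hb₀ l
    have hball : ball b (4 * δ) ⊆ HP σ ρ' := HP_ball hσ hl
    obtain ⟨hLb, hLb1⟩ := h.L_at hL hLa l
    rw [← hb, hL1] at hLb1
    rw [← hb] at hLb
    obtain ⟨H, hHd, hHQ, hH1⟩ := hole (Q := fun z => 1 - f z) hδ (show 1 / (8 * K ^ 2) ≤ 1 / 2 by linarith)
      (fun z hz hzb => by
        obtain ⟨h1, h2, h3, h4⟩ := hfan z (hsub' (hball hz)) (h.notMem hbB hz hzb)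
        exact ⟨analyticAt_const.sub h1, sub_ne_zero.2 h3.symm⟩)
      ((MeromorphicAt.const 1 b).sub (hf.1 b (hsub' (hball (mem_ball_self (by positivity))))))
      (fun z hz1 hz2 => by
        have hz : z ∈ ball b (4 * δ) := by rwa [mem_ball, dist_eq_norm]
        have h1 := hsmall z (hsub' (hball hz)) (h.mem_gd hbB hz hz1) (h.re_le hbB hz)
        rwa [sub_sub_cancel_left, norm_neg])
    have hbb : b ∈ ball b (4 * δ) := mem_ball_self (by positivity)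
    have hHb : H b ≠ 0 := by
      intro h0
      have h1 := hH1 b hbb
      rw [h0, zero_sub, norm_neg, norm_one] at h1
      linarith
    have hHc : Tendsto H (𝓝[≠] b) (𝓝 (H b)) := (hHd.differentiableAt (isOpen_ball.mem_nhds hbb)).continuousAt.continuousWithinAt
    have hLc : Tendsto L (𝓝[≠] b) (𝓝 1) := by
      have h1 : Tendsto L (𝓝[≠] b) (𝓝 (L b)) := hLb.continuousAt.continuousWithinAt
      rwa [hLb1] at h1
    have hQlim : Tendsto (fun z => (L z - (1 - H z)) / (L z * H z)) (𝓝[≠] b) (𝓝 ((1 - (1 - H b)) / (1 * H b))) :=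
      (hLc.sub (hHc.const_sub 1)).div (hLc.mul hHc) (by rw [one_mul]; exact hHb)
    have hone' : (1 - (1 - H b)) / (1 * H b) = 1 := by
      rw [sub_sub_cancel, one_mul, div_self hHb]
    rw [hone'] at hQlim
    have hJc : Tendsto (fun z => Complex.exp (J z)) (𝓝[≠] b) (𝓝 (Complex.exp (J b))) := by
      have h1 : ContinuousAt J b := (hJd.differentiableAt ((isOpen_HP σ ρ').mem_nhds (hball hbb))).continuousAt
      exact (Complex.continuous_exp.continuousAt.comp h1).continuousWithinAt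
    have hexp : Complex.exp (J b) = 1 := by
      refine tendsto_nhds_unique hJc (hQlim.congr' ?_)
      have h1 : ∀ᶠ z in 𝓝[≠] b, z ∈ ball b (4 * δ) := mem_nhdsWithin_of_mem_nhds (isOpen_ball.mem_nhds hbb)
      filter_upwards [h1, self_mem_nhdsWithin] with z hz hzb
      rw [hJe z (hball hz) (h.notMem hbB hz hzb), hHQ z hz hzb, hQ, sub_sub_cancel]
    refine eq_zero_of_exp hexp ?_
    have h1 := hJ2 b (hball hbb) (h.re_le hbB hbb)
    linarith [Real.pi_gt_three]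
  have hJ0 := zero_hp hσ hp (hJd.mono hsub'') hM' (fun z hz => hJg z (hsub'' hz)) hzero
  obtain ⟨z, hz, hzB⟩ := h.exists_pt hσ (ρ' + 4 * δ)
  obtain ⟨h1, h2, h3, h4⟩ := hfan z (hsub' (hsub'' hz)) hzB
  obtain ⟨h5, h6, h7⟩ := hLan z hzB
  have h8 := hJe z (hsub'' hz) hzB
  rw [hJ0 z hz, Complex.exp_zero] at h8
  have h9 : L z * (1 - f z) ≠ 0 := mul_ne_zero h6 (sub_ne_zero.2 h3.symm)
  have h10 : L z - f z = L z * (1 - f z) := by
    have h11 : (L z - f z) / (L z * (1 - f z)) = 1 := h8.symm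
    rwa [div_eq_one_iff_eq h9] at h11
  have h12 : f z * (L z - 1) = 0 := by linear_combination h10
  rcases mul_eq_zero.1 h12 with h13 | h13
  · exact h2 h13
  · exact h7 (sub_eq_zero.1 h13)

end Pool.Agent.H62.LR
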