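import Pool.Agent.H62.LR.LAI

/-!
# LR LHI: case (I), two members away from the sections and close to each other agree
-/

set_option autoImplicit false

open Topology Filter Metric

noncomputable section

namespace Pool.Agent.H62.LR

open Pool.Agent.H87.LU (Gd HP isOpen_HP convex_HP HP_anti gd_notMem)

variable {p : ℝ} {B : Set ℂ} {δ W : ℝ} {𝓛 : Set (ℂ → ℂ)} {C A : Set ℂ}

/-- different elements of a finite set are not close -/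
theorem gap (hA : A.Finite) : ∃ η : ℝ, 0 < η ∧ ∀ a ∈ A, ∀ a' ∈ A, ‖a' - a‖ ≤ η * ‖a‖ → a' = a := by
  have h1 : ∀ q ∈ A ×ˢ A, ∀ᶠ η : ℝ in 𝓝[>] 0, ‖q.2 - q.1‖ ≤ η * ‖q.1‖ → q.2 = q.1 := by
    rintro ⟨a, a'⟩ -
    by_cases hne : a' = a
    · exact Eventually.of_forall fun _ _ => hne
    · by_cases ha : a = 0
      · filter_upwards with η hη
        simp only [ha, norm_zero, mul_zero, sub_zero] at hη ⊢
        exact norm_le_zero_iff.1 hη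
      · have hpos : 0 < ‖a' - a‖ / ‖a‖ := div_pos (norm_pos_iff.2 (sub_ne_zero.2 hne)) (norm_pos_iff.2 ha)
        filter_upwards [Ioo_mem_nhdsGT hpos] with η hη hle
        exfalso
        have h2 := hη.2
        rw [lt_div_iff₀ (norm_pos_iff.2 ha)] at h2
        exact absurd hle (not_le.2 h2)
  have h2 := (Filter.eventually_all_finite (hA.prod hA)).2 h1
  obtain ⟨η, hη, hη0⟩ := (h2.and self_mem_nhdsWithin).exists
  exact ⟨η, hη0, fun a ha a' ha' hle => hη (a, a') ⟨ha, ha'⟩ hle⟩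

/-- the logarithm of a product of two functions which omit `0`, `1` and are bounded in the strip -/
theorem log_prod (h : BaseD p B δ W 𝓛 C A) {σ ρ : ℝ} (hσ : σ = 1 ∨ σ = -1) {X Y : ℂ → ℂ} {M₀ : ℝ} (hXm : ∀ z ∈ HP σ ρ, MeromorphicAt X z)
    (hYm : ∀ z ∈ HP σ ρ, MeromorphicAt Y z) (hX : ∀ z ∈ HP σ ρ, z ∉ B → AnalyticAt ℂ X z ∧ X z ≠ 0 ∧ X z ≠ 1)
    (hY : ∀ z ∈ HP σ ρ, z ∉ B → AnalyticAt ℂ Y z ∧ Y z ≠ 0 ∧ Y z ≠ 1)
    (hXM : ∀ z ∈ HP σ ρ, z ∈ Gd B δ → |z.re| ≤ W → ‖X z‖ ≤ M₀) (hYM : ∀ z ∈ HP σ ρ, z ∈ Gd B δ → |z.re| ≤ W → ‖Y z‖ ≤ M₀)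
    (h1 : ∀ z ∈ HP σ ρ, z ∈ Gd B δ → |z.re| ≤ W → ‖X z * Y z - 1‖ ≤ 1 / 2) :
    ∃ (J : ℂ → ℂ) (ρ' M' : ℝ) (k' : ℕ), ρ ≤ ρ' ∧ 0 ≤ M' ∧ DifferentiableOn ℂ J (HP σ ρ') ∧ (∀ z ∈ HP σ ρ', z ∉ B → Complex.exp (J z) = X z * Y z) ∧
      (∀ z ∈ HP σ ρ', |z.re| ≤ W → ‖J z‖ < 2) ∧ ∀ z ∈ HP σ ρ', ‖J z‖ ≤ M' * (1 + ‖z‖) ^ k' := by
  have hδ := h.δ_pos
  obtain ⟨M₁, hM₁, hg₁⟩ := end_growth h hσ hX hXM
  obtain ⟨M₂, hM₂, hg₂⟩ := end_growth h hσ hY hYM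
  have hsub : HP σ (ρ + 3) ⊆ HP σ ρ := HP_anti (by linarith)
  obtain ⟨J, ρ', M', k', hρ', hM', hJd, hJe, hJ2, hJb⟩ := log_fn h hσ (ρ := ρ + 3) (Q := fun z => X z * Y z)
    (fun z hz => (hXm z (hsub hz)).mul (hYm z (hsub hz)))
    (fun z hz hzB => ⟨(hX z (hsub hz) hzB).1.mul (hY z (hsub hz) hzB).1, mul_ne_zero (hX z (hsub hz) hzB).2.1 (hY z (hsub hz) hzB).2.1⟩)
    (fun z hz hzG hzW => h1 z (hsub hz) hzG hzW) (M := M₁ + M₂) (k := 8) (by positivity) (fun z hz hzW => by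
      have hzB : z ∉ B := by
        intro hzB
        have := h.B_re z hzB
        linarith
      have hX0 := norm_pos_iff.2 (hX z (hsub hz) hzB).2.1
      have hY0 := norm_pos_iff.2 (hY z (hsub hz) hzB).2.1
      rw [norm_mul, Real.log_mul hX0.ne' hY0.ne', add_mul]
      exact add_le_add (hg₁ z hz hzW) (hg₂ z hz hzW))
  exact ⟨J, ρ', M', k', by linarith, hM', hJd, hJe, hJ2, hJb⟩

/-- Case (I): two members away from the sections and close to each other agree. -/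
theorem lh_I (h : BaseD p B δ W ∅ C A) {b₀ : ℂ} (hb₀ : b₀ ∈ C) {c : ℝ} (hc : 0 < c) :
    ∃ ε : ℝ, 0 < ε ∧ ∀ σ ρ : ℝ, (σ = 1 ∨ σ = -1) → ∀ f ∈ Tm B ∅ C A (HP σ ρ), ∀ g ∈ Tm B ∅ C A (HP σ ρ),
      (∀ z ∈ HP σ ρ, z ∈ Gd B δ → |z.re| ≤ W → c ≤ ‖f z‖ ∧ ‖f z‖ ≤ 1 / c ∧ c ≤ ‖f z - 1‖ ∧
        c ≤ ‖g z‖ ∧ ‖g z‖ ≤ 1 / c ∧ c ≤ ‖g z - 1‖ ∧ ‖f z - g z‖ ≤ ε) →
      ∃ ρ' : ℝ, ρ ≤ ρ' ∧ ∀ z ∈ HP σ ρ', z ∉ B → f z = g z := by
  have hδ := h.δ_pos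
  have hp := h.p_pos
  obtain ⟨η, hη, hgap⟩ := gap h.A_fin
  set ε' : ℝ := min η (1 / 2) with hε'
  have hε'0 : 0 < ε' := lt_min hη (by norm_num)
  have hε'2 : ε' ≤ 1 / 2 := min_le_right _ _
  refine ⟨c * ε', by positivity, fun σ ρ hσ f hf g hg hfg => ?_⟩
  obtain ⟨hfm, hfB, hfC⟩ := hf
  obtain ⟨hgm, hgB, hgC⟩ := hg
  have hfan : ∀ z ∈ HP σ ρ, z ∉ B → AnalyticAt ℂ f z ∧ f z ≠ 0 ∧ f z ≠ 1 := fun z hz hzB => ⟨(hfB z hz hzB).1, (hfB z hz hzB).2.1, (hfB z hz hzB).2.2.1⟩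
  have hgan : ∀ z ∈ HP σ ρ, z ∉ B → AnalyticAt ℂ g z ∧ g z ≠ 0 ∧ g z ≠ 1 := fun z hz hzB => ⟨(hgB z hz hzB).1, (hgB z hz hzB).2.1, (hgB z hz hzB).2.2.1⟩
  have hinv : ∀ X : ℂ → ℂ, (∀ z ∈ HP σ ρ, z ∉ B → AnalyticAt ℂ X z ∧ X z ≠ 0 ∧ X z ≠ 1) → ∀ z ∈ HP σ ρ, z ∉ B →
      AnalyticAt ℂ (fun z => (X z)⁻¹) z ∧ (X z)⁻¹ ≠ 0 ∧ (X z)⁻¹ ≠ 1 := by
    intro X hX z hz hzB
    obtain ⟨h1, h2, h3⟩ := hX z hz hzB
    exact ⟨h1.inv h2, inv_ne_zero h2, fun h4 => h3 (inv_eq_one.1 h4)⟩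
  have hsubX : ∀ X : ℂ → ℂ, (∀ z ∈ HP σ ρ, z ∉ B → AnalyticAt ℂ X z ∧ X z ≠ 0 ∧ X z ≠ 1) → ∀ z ∈ HP σ ρ, z ∉ B →
      AnalyticAt ℂ (fun z => 1 - X z) z ∧ 1 - X z ≠ 0 ∧ 1 - X z ≠ 1 := by
    intro X hX z hz hzB
    obtain ⟨h1, h2, h3⟩ := hX z hz hzB
    exact ⟨analyticAt_const.sub h1, sub_ne_zero.2 h3.symm, fun h4 => h2 (by linear_combination -h4)⟩
  have hinvb : ∀ x : ℂ, c ≤ ‖x‖ → ‖x⁻¹‖ ≤ 1 / c := by
    intro x hx
    rw [norm_inv, one_div]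
    exact inv_anti₀ hc hx
  have hε'b : ∀ x y : ℂ, c ≤ ‖y‖ → ‖x‖ ≤ c * ε' → ‖x * y⁻¹‖ ≤ ε' := by
    intro x y hy hx
    rw [norm_mul]
    calc ‖x‖ * ‖y⁻¹‖ ≤ c * ε' * (1 / c) := mul_le_mul hx (hinvb y hy) (norm_nonneg _) (by positivity)
      _ = ε' := by field_simp
  -- closeness of the two quotients to `1`
  have hQ1 : ∀ z ∈ HP σ ρ, z ∈ Gd B δ → |z.re| ≤ W → ‖f z * (g z)⁻¹ - 1‖ ≤ ε' := by
    intro z hz hzG hzW
    obtain ⟨h1, h2, h3, h4, h5, h6, h7⟩ := hfg z hz hzG hzW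
    have hg0 := (hgan z hz (gd_notMem hδ hzG)).2.1
    have h8 : f z * (g z)⁻¹ - 1 = (f z - g z) * (g z)⁻¹ := by
      rw [sub_mul, mul_inv_cancel₀ hg0]
    rw [h8]
    exact hε'b _ _ h4 h7
  have hQ2 : ∀ z ∈ HP σ ρ, z ∈ Gd B δ → |z.re| ≤ W → ‖(1 - f z) * (1 - g z)⁻¹ - 1‖ ≤ ε' := by
    intro z hz hzG hzW
    obtain ⟨h1, h2, h3, h4, h5, h6, h7⟩ := hfg z hz hzG hzW
    have hg1 : 1 - g z ≠ 0 := sub_ne_zero.2 (hgan z hz (gd_notMem hδ hzG)).2.2.symm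
    have h8 : (1 - f z) * (1 - g z)⁻¹ - 1 = (g z - f z) * (1 - g z)⁻¹ := by
      have h9 : (1 - g z) * (1 - g z)⁻¹ = 1 := mul_inv_cancel₀ hg1
      linear_combination h9
    rw [h8]
    refine hε'b _ _ ?_ ?_
    · rwa [norm_sub_rev]
    · rwa [norm_sub_rev]
  have hM₀ : (1 / c) ≤ 1 + 1 / c := by linarith
  obtain ⟨J₁, ρ₁, M₁, k₁, hρ₁, hM₁, hJd₁, hJe₁, hJs₁, hJb₁⟩ := log_prod h hσ (X := f) (Y := fun z => (g z)⁻¹) (M₀ := 1 / c) hfm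
    (fun z hz => (hgm z hz).inv) hfan (hinv g hgan) (fun z hz hzG hzW => (hfg z hz hzG hzW).2.1)
    (fun z hz hzG hzW => hinvb _ (hfg z hz hzG hzW).2.2.2.1) (fun z hz hzG hzW => (hQ1 z hz hzG hzW).trans hε'2)
  obtain ⟨J₂, ρ₂, M₂, k₂, hρ₂, hM₂, hJd₂, hJe₂, hJs₂, hJb₂⟩ := log_prod h hσ (X := fun z => 1 - f z) (Y := fun z => (1 - g z)⁻¹) (M₀ := 1 + 1 / c)
    (fun z hz => (MeromorphicAt.const 1 z).sub (hfm z hz)) (fun z hz => ((MeromorphicAt.const 1 z).sub (hgm z hz)).inv) (hsubX f hfan)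
    (hinv (fun z => 1 - g z) (hsubX g hgan)) (fun z hz hzG hzW => (norm_sub_le _ _).trans (by rw [norm_one]; linarith [(hfg z hz hzG hzW).2.1]))
    (fun z hz hzG hzW => (hinvb _ (by rw [norm_sub_rev]; exact (hfg z hz hzG hzW).2.2.2.2.2.1)).trans hM₀)
    (fun z hz hzG hzW => (hQ2 z hz hzG hzW).trans hε'2)
  set ρ' : ℝ := max ρ₁ ρ₂ + 4 * δ with hρ'
  have hsub₁ : HP σ ρ' ⊆ HP σ ρ₁ := HP_anti (by rw [hρ']; linarith [le_max_left ρ₁ ρ₂])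
  have hsub₂ : HP σ ρ' ⊆ HP σ ρ₂ := HP_anti (by rw [hρ']; linarith [le_max_right ρ₁ ρ₂])
  have hρρ' : ρ + 4 * δ ≤ ρ' := by rw [hρ']; linarith [le_max_left ρ₁ ρ₂]
  have hsub : HP σ ρ' ⊆ HP σ ρ := HP_anti (by linarith)
  -- the zeros
  have hzero : ∀ l : ℤ, b₀ + p * l * Complex.I ∈ HP σ ρ' →
      J₁ (b₀ + p * l * Complex.I) * J₂ (b₀ + p * l * Complex.I) * (J₂ (b₀ + p * l * Complex.I) - J₁ (b₀ + p * l * Complex.I)) = 0 := by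
    intro l hl
    set b : ℂ := b₀ + p * l * Complex.I with hb
    have hbC : b ∈ C := h.C_inv b₀ hb₀ l
    have hbB : b ∈ B := h.C_sub hbC
    have hbρ : b ∈ HP σ ρ := hsub hl
    have hball : ball b (4 * δ) ⊆ HP σ ρ := HP_ball hσ (HP_anti hρρ' hl)
    have hbb : b ∈ ball b (4 * δ) := mem_ball_self (by positivity)
    have hbW := h.re_le hbB hbb
    have hJc₁ : ContinuousAt J₁ b := (hJd₁.differentiableAt ((isOpen_HP _ _).mem_nhds (hsub₁ hl))).continuousAt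
    have hJc₂ : ContinuousAt J₂ b := (hJd₂.differentiableAt ((isOpen_HP _ _).mem_nhds (hsub₂ hl))).continuousAt
    have hev : ∀ᶠ z in 𝓝[≠] b, z ∉ B ∧ z ∈ HP σ ρ' := by
      filter_upwards [h.punct hbB, nhdsWithin_le_nhds ((isOpen_HP _ _).mem_nhds hl)] with z hz1 hz2
      exact ⟨hz1, hz2⟩
    have he₁ : ∀ᶠ z in 𝓝[≠] b, Complex.exp (J₁ z) = f z * (g z)⁻¹ := hev.mono fun z hz => hJe₁ z (hsub₁ hz.2) hz.1
    have he₂ : ∀ᶠ z in 𝓝[≠] b, Complex.exp (J₂ z) = (1 - f z) * (1 - g z)⁻¹ := hev.mono fun z hz => hJe₂ z (hsub₂ hz.2) hz.1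
    have hs₁ := hJs₁ b (hsub₁ hl) hbW
    have hs₂ := hJs₂ b (hsub₂ hl) hbW
    -- the extension of the first quotient
    obtain ⟨H, hHd, hHQ, hH1⟩ := hole (Q := fun z => f z * (g z)⁻¹) hδ hε'2 (fun z hz hzb => by
        have h1 := hfan z (hball hz) (h.notMem hbB hz hzb)
        have h2 := hinv g hgan z (hball hz) (h.notMem hbB hz hzb)
        exact ⟨h1.1.mul h2.1, mul_ne_zero h1.2.1 h2.2.1⟩)
      ((hfm b hbρ).mul (hgm b hbρ).inv) (fun z hz1 hz2 => by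
        have hz : z ∈ ball b (4 * δ) := by rwa [mem_ball, dist_eq_norm]
        exact hQ1 z (hball hz) (h.mem_gd hbB hz hz1) (h.re_le hbB hz))
    have hHc : Tendsto H (𝓝[≠] b) (𝓝 (H b)) := (hHd.differentiableAt (isOpen_ball.mem_nhds hbb)).continuousAt.continuousWithinAt
    have hHev : ∀ᶠ z in 𝓝[≠] b, f z = H z * g z := by
      have h1 : ∀ᶠ z in 𝓝[≠] b, z ∈ ball b (4 * δ) := mem_nhdsWithin_of_mem_nhds (isOpen_ball.mem_nhds hbb)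
      filter_upwards [h1, self_mem_nhdsWithin, hev] with z hz1 hz2 hz3
      rw [hHQ z hz1 hz2, inv_mul_cancel_right₀ (hgan z (hsub hz3.2) hz3.1).2.1]
    have hQH : Tendsto (fun z => f z * (g z)⁻¹) (𝓝[≠] b) (𝓝 (H b)) := by
      refine hHc.congr' ?_
      have h1 : ∀ᶠ z in 𝓝[≠] b, z ∈ ball b (4 * δ) := mem_nhdsWithin_of_mem_nhds (isOpen_ball.mem_nhds hbb)
      filter_upwards [h1, self_mem_nhdsWithin] with z hz1 hz2
      exact hHQ z hz1 hz2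
    rcases lt_or_ge (meromorphicOrderAt g b) 0 with ho | ho
    · -- pole
      have hgi : Tendsto (fun z => (g z)⁻¹) (𝓝[≠] b) (𝓝 0) := tendsto_inv₀_cobounded.comp (tendsto_cobounded_of_meromorphicOrderAt_neg ho)
      have hH0 : H b ≠ 0 := by
        intro h0
        have h1 := hH1 b hbb
        rw [h0, zero_sub, norm_neg, norm_one] at h1
        linarith
      have h3 : Tendsto (fun z => ((g z)⁻¹ - H z) * (H z)⁻¹ * ((g z)⁻¹ - 1)⁻¹) (𝓝[≠] b) (𝓝 ((0 - H b) * (H b)⁻¹ * (0 - 1)⁻¹)) :=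
        ((hgi.sub hHc).mul (hHc.inv₀ hH0)).mul ((hgi.sub_const 1).inv₀ (by norm_num))
      have h4 : (0 - H b) * (H b)⁻¹ * (0 - 1)⁻¹ = 1 := by
        rw [zero_sub, zero_sub, neg_mul, mul_inv_cancel₀ hH0]
        norm_num
      rw [h4] at h3
      have hexp := exp_of_tendsto (J := fun z => J₂ z - J₁ z) (hJc₂.sub hJc₁) (Q := fun z => ((g z)⁻¹ - H z) * (H z)⁻¹ * ((g z)⁻¹ - 1)⁻¹) ?_ h3
      · have h5 : J₂ b - J₁ b = 0 := exp_zero hexp (by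
          have := norm_sub_le (J₂ b) (J₁ b)
          linarith)
        rw [h5, mul_zero]
      · have hH0ev : ∀ᶠ z in 𝓝[≠] b, H z ≠ 0 := hHc.eventually_ne hH0
        filter_upwards [he₁, he₂, hHev, hev, hH0ev] with z h5 h6 h7 h8 h9
        have hg0 := (hgan z (hsub h8.2) h8.1).2.1
        have hg1 : 1 - g z ≠ 0 := sub_ne_zero.2 (hgan z (hsub h8.2) h8.1).2.2.symm
        have hgi1 : (g z)⁻¹ - 1 ≠ 0 := by
          rw [sub_ne_zero]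
          exact fun h10 => (hgan z (hsub h8.2) h8.1).2.2 (inv_eq_one.1 h10)
        show Complex.exp (J₂ z - J₁ z) = _
        rw [Complex.exp_sub, h5, h6, h7]
        have h10 : ((g z)⁻¹ - 1)⁻¹ = g z * (1 - g z)⁻¹ := by
          have h11 : (g z)⁻¹ - 1 = (1 - g z) * (g z)⁻¹ := by
            rw [sub_mul, one_mul, mul_inv_cancel₀ hg0]
          rw [h11, mul_inv, inv_inv, mul_comm]
        rw [h10]
        field_simp
    · -- finite value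
      obtain ⟨a, ha⟩ := tendsto_nhds_of_meromorphicOrderAt_nonneg (hgm b hbρ) ho
      have haA : a ∈ A := hgC b hbρ hbC a ha
      have hfa : Tendsto f (𝓝[≠] b) (𝓝 (H b * a)) := (hHc.mul ha).congr' (hHev.mono fun z hz => hz.symm)
      have hfaA : H b * a ∈ A := hfC b hbρ hbC _ hfa
      have haa : H b * a = a := by
        refine hgap a haA _ hfaA ?_
        have h1 : H b * a - a = (H b - 1) * a := by ring
        rw [h1, norm_mul]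
        exact mul_le_mul_of_nonneg_right ((hH1 b hbb).trans (min_le_left _ _)) (norm_nonneg _)
      by_cases ha0 : a = 0
      · have h1 : Tendsto (fun z => (1 - f z) * (1 - g z)⁻¹) (𝓝[≠] b) (𝓝 ((1 - H b * a) * (1 - a)⁻¹)) :=
          (hfa.const_sub 1).mul ((ha.const_sub 1).inv₀ (by rw [ha0, sub_zero]; exact one_ne_zero))
        rw [ha0, mul_zero, sub_zero, inv_one, one_mul] at h1
        have h2 := exp_zero (exp_of_tendsto hJc₂ he₂ h1) (by linarith)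
        rw [h2, mul_zero, zero_mul]
      · have h1 : H b = 1 := by
          have h2 : (H b - 1) * a = 0 := by linear_combination haa
          rcases mul_eq_zero.1 h2 with h3 | h3
          · exact sub_eq_zero.1 h3
          · exact absurd h3 ha0
        rw [h1] at hQH
        have h2 := exp_zero (exp_of_tendsto hJc₁ he₁ hQH) (by linarith)
        rw [h2, zero_mul, zero_mul]
  have hJ0 := zero_hp (J := fun z => J₁ z * J₂ z * (J₂ z - J₁ z)) (a := b₀) (ρ := ρ') (M := M₁ * M₂ * (M₂ + M₁)) (k := k₁ + k₂ + (k₂ + k₁)) hσ hp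
    (((hJd₁.mono hsub₁).mul (hJd₂.mono hsub₂)).mul ((hJd₂.mono hsub₂).sub (hJd₁.mono hsub₁))) (by positivity) (fun z hz => by
      have h1 := hJb₁ z (hsub₁ hz)
      have h2 := hJb₂ z (hsub₂ hz)
      have hz1 : (1 : ℝ) ≤ 1 + ‖z‖ := by linarith [norm_nonneg z]
      have h3 : ‖J₂ z - J₁ z‖ ≤ (M₂ + M₁) * (1 + ‖z‖) ^ (k₂ + k₁) := by
        refine (norm_sub_le _ _).trans ?_
        have h4 : M₂ * (1 + ‖z‖) ^ k₂ ≤ M₂ * (1 + ‖z‖) ^ (k₂ + k₁) := mul_le_mul_of_nonneg_left (pow_le_pow_right₀ hz1 (Nat.le_add_right _ _)) hM₂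
        have h5 : M₁ * (1 + ‖z‖) ^ k₁ ≤ M₁ * (1 + ‖z‖) ^ (k₂ + k₁) := mul_le_mul_of_nonneg_left (pow_le_pow_right₀ hz1 (Nat.le_add_left _ _)) hM₁
        linarith
      rw [norm_mul, norm_mul]
      calc ‖J₁ z‖ * ‖J₂ z‖ * ‖J₂ z - J₁ z‖ ≤ M₁ * (1 + ‖z‖) ^ k₁ * (M₂ * (1 + ‖z‖) ^ k₂) * ((M₂ + M₁) * (1 + ‖z‖) ^ (k₂ + k₁)) := by gcongr
        _ = M₁ * M₂ * (M₂ + M₁) * (1 + ‖z‖) ^ (k₁ + k₂ + (k₂ + k₁)) := by
          rw [pow_add (1 + ‖z‖) (k₁ + k₂), pow_add (1 + ‖z‖) k₁ k₂]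
          ring) hzero
  refine ⟨ρ', by linarith, fun z hz hzB => ?_⟩
  obtain ⟨h1, h2, h3⟩ := hfan z (hsub hz) hzB
  obtain ⟨h4, h5, h6⟩ := hgan z (hsub hz) hzB
  have h7 : 1 - g z ≠ 0 := sub_ne_zero.2 h6.symm
  have e₁ := hJe₁ z (hsub₁ hz) hzB
  have e₂ := hJe₂ z (hsub₂ hz) hzB
  rcases mul_eq_zero.1 (hJ0 z hz) with h8 | h8
  · rcases mul_eq_zero.1 h8 with h9 | h9
    · rw [h9, Complex.exp_zero] at e₁
      rw [← mul_inv_eq_one₀ h5]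
      exact e₁.symm
    · rw [h9, Complex.exp_zero] at e₂
      have h10 : 1 - f z = 1 - g z := by
        rw [← mul_inv_eq_one₀ h7]
        exact e₂.symm
      linear_combination -h10
  · have h9 : J₂ z = J₁ z := sub_eq_zero.1 h8
    rw [h9, e₁] at e₂
    have h10 : f z * (1 - g z) = (1 - f z) * g z := by
      have h11 : f z * (g z)⁻¹ * (g z * (1 - g z)) = (1 - f z) * (1 - g z)⁻¹ * (g z * (1 - g z)) := by rw [e₂]
      have h12 : f z * (g z)⁻¹ * (g z * (1 - g z)) = f z * (1 - g z) := by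
        field_simp
      have h13 : (1 - f z) * (1 - g z)⁻¹ * (g z * (1 - g z)) = (1 - f z) * g z := by
        field_simp
      rwa [h12, h13] at h11
    linear_combination h10

end Pool.Agent.H62.LR
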