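import Mathlib

/-!
# LR Ident: connectedness outside a discrete set (copy from `H87.LV.Uniq`)
-/

set_option autoImplicit false

open Topology Filter Metric

namespace Pool.Agent.H62.LR

/-- the punctured disc is connected -/
theorem preconnected_punct (z : ℂ) (r : ℝ) : IsPreconnected (ball z r \ {z}) := by
  have h1 : IsPreconnected (Set.Ioo (0 : ℝ) r ×ˢ (Set.univ : Set ℝ)) := isPreconnected_Ioo.prod isPreconnected_univ
  have hc : Continuous fun p : ℝ × ℝ => z + (p.1 : ℂ) * Complex.exp (p.2 * Complex.I) := by fun_prop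
  have h2 := h1.image _ hc.continuousOn
  have h3 : (fun p : ℝ × ℝ => z + (p.1 : ℂ) * Complex.exp (p.2 * Complex.I)) '' (Set.Ioo (0 : ℝ) r ×ˢ (Set.univ : Set ℝ)) = ball z r \ {z} := by
    ext w
    constructor
    · rintro ⟨p, ⟨⟨hp1, hp2⟩, -⟩, rfl⟩
      have hn : ‖(p.1 : ℂ) * Complex.exp (p.2 * Complex.I)‖ = p.1 := by
        rw [norm_mul, Complex.norm_exp_ofReal_mul_I, mul_one, Complex.norm_real, Real.norm_of_nonneg hp1.le]
      refine ⟨?_, ?_⟩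
      · rw [mem_ball, dist_eq_norm, add_sub_cancel_left, hn]
        exact hp2
      · intro h
        have h4 : (p.1 : ℂ) * Complex.exp (p.2 * Complex.I) = 0 := by
          have h5 : z + (p.1 : ℂ) * Complex.exp (p.2 * Complex.I) = z := h
          rwa [add_eq_left] at h5
        rw [h4, norm_zero] at hn
        exact hp1.ne hn
    · rintro ⟨hw, hwz⟩
      have hne : w - z ≠ 0 := sub_ne_zero.2 hwz
      refine ⟨(‖w - z‖, Complex.arg (w - z)), ⟨⟨norm_pos_iff.2 hne, ?_⟩, Set.mem_univ _⟩, ?_⟩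
      · rw [mem_ball, dist_eq_norm] at hw
        exact hw
      · show z + (‖w - z‖ : ℂ) * Complex.exp (Complex.arg (w - z) * Complex.I) = w
        rw [Complex.norm_mul_exp_arg_mul_I]
        ring
  rwa [h3] at h2

theorem ident {Y : Type*} {Ω B : Set ℂ} (hΩ : IsOpen Ω) (hΩc : IsPreconnected Ω) (hB : ∀ z, ∀ᶠ w in 𝓝[≠] z, w ∉ B) {f g : ℂ → Y}
    (hloc : ∀ z ∈ Ω, z ∉ B → (∃ᶠ w in 𝓝[≠] z, f w = g w) → ∀ᶠ w in 𝓝 z, f w = g w) {z₀ : ℂ} (hz₀ : z₀ ∈ Ω) (hz₀B : z₀ ∉ B)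
    (h : ∃ᶠ w in 𝓝[≠] z₀, f w = g w) : ∀ z ∈ Ω, z ∉ B → f z = g z := by
  set A : Set ℂ := {z | ∀ᶠ w in 𝓝[≠] z, f w = g w} with hA
  have hAo : IsOpen A := by
    rw [isOpen_iff_mem_nhds]
    intro z hz
    have h1 : ∀ᶠ w in 𝓝 z, w ≠ z → f w = g w := by
      have h2 : ∀ᶠ w in 𝓝[≠] z, f w = g w := hz
      rwa [eventually_nhdsWithin_iff] at h2
    obtain ⟨V, hV, hVo, hzV⟩ := _root_.mem_nhds_iff.1 h1
    refine Filter.mem_of_superset (hVo.mem_nhds hzV) fun w hw => ?_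
    by_cases hwz : w = z
    · rw [hwz]
      exact hz
    · have h3 : V ∩ {z}ᶜ ∈ 𝓝 w := (hVo.inter isOpen_compl_singleton).mem_nhds ⟨hw, hwz⟩
      have h4 : ∀ᶠ x in 𝓝 w, f x = g x := by
        filter_upwards [h3] with x hx
        exact hV hx.1 hx.2
      exact h4.filter_mono nhdsWithin_le_nhds
  -- near a point of the closure there are points with `f = g`
  have hfreq : ∀ z ∈ closure A, ∃ᶠ w in 𝓝[≠] z, f w = g w := by
    intro z hzc hcontra
    have h1 : ∀ᶠ w in 𝓝 z, w ≠ z → ¬ f w = g w := by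
      rw [eventually_nhdsWithin_iff] at hcontra
      exact hcontra
    obtain ⟨V, hV, hVo, hzV⟩ := _root_.mem_nhds_iff.1 h1
    obtain ⟨w, hwV, hwA⟩ := _root_.mem_closure_iff.1 hzc V hVo hzV
    have h2 : ∀ᶠ x in 𝓝[≠] w, f x = g x := hwA
    have h3 : ∀ᶠ x in 𝓝[≠] w, x ∈ V := mem_nhdsWithin_of_mem_nhds (hVo.mem_nhds hwV)
    by_cases hwz : w = z
    · obtain ⟨x, ⟨hx1, hx2⟩, hx3⟩ := ((h2.and h3).and (self_mem_nhdsWithin : ∀ᶠ x in 𝓝[≠] w, x ∈ ({w}ᶜ : Set ℂ))).exists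
      exact hV hx2 (by rw [← hwz]; exact hx3) hx1
    · have h4 : ∀ᶠ x in 𝓝[≠] w, x ≠ z := mem_nhdsWithin_of_mem_nhds (isOpen_compl_singleton.mem_nhds hwz)
      obtain ⟨x, ⟨hx1, hx2⟩, hx3⟩ := ((h2.and h3).and h4).exists
      exact hV hx2 hx3 hx1
  have hcl1 : ∀ z ∈ Ω, z ∉ B → z ∈ closure A → ∀ᶠ w in 𝓝 z, f w = g w := fun z hz hzB hzc => hloc z hz hzB (hfreq z hzc)
  have hz₀A : z₀ ∈ A := (hloc z₀ hz₀ hz₀B h).filter_mono nhdsWithin_le_nhds
  have hsub : Ω ⊆ A := by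
    refine hΩc.subset_of_closure_inter_subset hAo ⟨z₀, hz₀, hz₀A⟩ ?_
    rintro z ⟨hzc, hz⟩
    by_cases hzB : z ∈ B
    · -- a punctured disc around `z`
      obtain ⟨r, hr, hrb⟩ : ∃ r : ℝ, 0 < r ∧ ∀ w ∈ ball z r, w ∈ Ω ∧ (w ≠ z → w ∉ B) := by
        have h1 : ∀ᶠ w in 𝓝 z, w ∈ Ω ∧ (w ≠ z → w ∉ B) := by
          have h2 := hB z
          rw [eventually_nhdsWithin_iff] at h2
          exact Filter.Eventually.and (hΩ.mem_nhds hz) h2
        obtain ⟨r, hr, hrb⟩ := Metric.eventually_nhds_iff_ball.1 h1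
        exact ⟨r, hr, hrb⟩
      obtain ⟨w, hw, hwA⟩ := _root_.mem_closure_iff.1 hzc (ball z r) isOpen_ball (mem_ball_self hr)
      by_cases hwz : w = z
      · rwa [hwz] at hwA
      · have h3 : ball z r \ {z} ⊆ A := by
          refine (preconnected_punct z r).subset_of_closure_inter_subset hAo ⟨w, ⟨hw, hwz⟩, hwA⟩ ?_
          rintro x ⟨hxc, hx⟩
          exact (hcl1 x (hrb x hx.1).1 ((hrb x hx.1).2 hx.2) hxc).filter_mono nhdsWithin_le_nhds
        show ∀ᶠ x in 𝓝[≠] z, f x = g x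
        rw [eventually_nhdsWithin_iff]
        filter_upwards [ball_mem_nhds z hr] with x hx hxz
        exact (hcl1 x (hrb x hx).1 ((hrb x hx).2 hxz) (subset_closure (h3 ⟨hx, hxz⟩))).self_of_nhds
    · exact (hcl1 z hz hzB hzc).filter_mono nhdsWithin_le_nhds
  intro z hz hzB
  exact (hcl1 z hz hzB (subset_closure (hsub hz))).self_of_nhds

/-- a locally constant property outside a discrete set is constant -/
theorem const_of_local {Ω B : Set ℂ} (hΩ : IsOpen Ω) (hΩc : IsPreconnected Ω) (hB : ∀ z, ∀ᶠ w in 𝓝[≠] z, w ∉ B) (P : ℂ → Prop)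
    (hloc : ∀ z ∈ Ω, z ∉ B → ∀ᶠ w in 𝓝 z, (P w ↔ P z)) {z₀ : ℂ} (hz₀ : z₀ ∈ Ω) (hz₀B : z₀ ∉ B) (h : P z₀) : ∀ z ∈ Ω, z ∉ B → P z := by
  have h1 := ident hΩ hΩc hB (f := fun z => (P z : Prop)) (g := fun _ => True) ?_ hz₀ hz₀B ?_
  · intro z hz hzB
    exact of_eq_true (h1 z hz hzB)
  · intro z hz hzB hfr
    have h2 := hloc z hz hzB
    have h3 : P z := by
      obtain ⟨w, hw1, hw2⟩ := (hfr.and_eventually (h2.filter_mono nhdsWithin_le_nhds)).exists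
      exact hw2.1 (of_eq_true hw1)
    filter_upwards [h2] with w hw
    exact eq_true (hw.2 h3)
  · have h2 := hloc z₀ hz₀ hz₀B
    refine (Eventually.frequently ?_)
    filter_upwards [h2.filter_mono nhdsWithin_le_nhds] with w hw
    exact eq_true (hw.2 h)

end Pool.Agent.H62.LR
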