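import Pool.Agent.H62.LR.Defs

/-!
# LR Lim0: the lemmas of `HLim` for `HD0` (no statement on half planes)
-/

set_option autoImplicit false

open Topology Filter Metric

namespace Pool.Agent.H62.LR

open Pool.Agent.H87.LU

variable {Y : Type} [MetricSpace Y] {K : Set Y} {p : ℝ} {B : Set ℂ} {δ W : ℝ} {S : Set ℂ → Set (ℂ → Y)}

theorem HD0.mem_add (h : HD0 K p B δ W S) {b : ℂ} (l : ℤ) : b + p * l * Complex.I ∈ B ↔ b ∈ B := by
  constructor
  · intro hb
    have h1 := h.B_inv _ hb (-l)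
    have h2 : b + p * l * Complex.I + p * ((-l : ℤ) : ℂ) * Complex.I = b := by
      push_cast
      ring
    rwa [h2] at h1
  · exact fun hb => h.B_inv b hb l

theorem HD0.gd_add (h : HD0 K p B δ W S) (δ' : ℝ) {z : ℂ} (l : ℤ) : z + p * l * Complex.I ∈ Gd B δ' ↔ z ∈ Gd B δ' := by
  constructor
  · intro hz b hb
    have h1 := hz (b + p * l * Complex.I) (h.B_inv b hb l)
    rwa [add_sub_add_right_eq_sub] at h1
  · intro hz b hb
    have h1 := hz (b + p * ((-l : ℤ) : ℂ) * Complex.I) (h.B_inv b hb (-l))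
    have h2 : z - (b + p * ((-l : ℤ) : ℂ) * Complex.I) = z + p * l * Complex.I - b := by
      push_cast
      ring
    rwa [h2] at h1

/-- the other bad points are far away -/
theorem HD0.far (h : HD0 K p B δ W S) {z b b' : ℂ} {r : ℝ} (hb : b ∈ B) (hb' : b' ∈ B) (hne : b' ≠ b) (hr : ‖z - b‖ < r) :
    8 * δ - r < ‖z - b'‖ := by
  have h1 := h.B_sep b' hb' b hb hne
  have h2 : b' - b = (z - b) - (z - b') := by ring
  rw [h2] at h1
  have h3 := norm_sub_le (z - b) (z - b')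
  linarith

theorem HD0.exists_gd (h : HD0 K p B δ W S) {z : ℂ} (hz : z ∉ B) : ∃ δ' : ℝ, 0 < δ' ∧ z ∈ Gd B δ' := by
  have hδ := h.δ_pos
  by_cases h1 : ∃ b ∈ B, ‖z - b‖ < 2 * δ
  · obtain ⟨b, hb, hb2⟩ := h1
    have hpos : 0 < ‖z - b‖ := by
      rw [norm_pos_iff, sub_ne_zero]
      rintro rfl
      exact hz hb
    refine ⟨min (2 * δ) ‖z - b‖, lt_min (by linarith) hpos, ?_⟩
    intro b' hb'
    by_cases hbb : b' = b
    · rw [hbb]
      exact min_le_right _ _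
    · have h2 := h.far hb hb' hbb hb2
      exact (min_le_left _ _).trans (by linarith)
  · push Not at h1
    exact ⟨2 * δ, by linarith, h1⟩

/-- a point in the strip is an accumulation point of the good points in the strip -/
theorem HD0.perfect (h : HD0 K p B δ W S) {z : ℂ} (hz : z ∈ Gd B (2 * δ)) (hzW : |z.re| ≤ W) :
    ∃ᶠ w in 𝓝[≠] z, w ∈ Gd B (2 * δ) ∧ |w.re| < W := by
  have hδ := h.δ_pos
  by_cases h1 : ∃ b ∈ B, ‖z - b‖ < 3 * δ
  · obtain ⟨b, hb, hb3⟩ := h1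
    have hzb : z ≠ b := by
      rintro rfl
      exact gd_notMem (by linarith) hz hb
    have hzb' : z - b ≠ 0 := sub_ne_zero.2 hzb
    have htend : Tendsto (fun s : ℝ => z + (s : ℂ) * (z - b)) (𝓝[>] 0) (𝓝[≠] z) := by
      refine tendsto_nhdsWithin_iff.2 ⟨?_, ?_⟩
      · have hc : Continuous (fun s : ℝ => z + (s : ℂ) * (z - b)) := by fun_prop
        have h2 := hc.tendsto 0
        simp only [Complex.ofReal_zero, zero_mul, add_zero] at h2
        exact h2.mono_left nhdsWithin_le_nhds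
      · filter_upwards [self_mem_nhdsWithin] with s hs
        have hs' : (0 : ℝ) < s := hs
        show z + (s : ℂ) * (z - b) ≠ z
        intro heq
        have h3 : (s : ℂ) * (z - b) = 0 := by
          rwa [add_eq_left] at heq
        rcases mul_eq_zero.1 h3 with h4 | h4
        · exact hs'.ne' (Complex.ofReal_eq_zero.1 h4)
        · exact hzb' h4
    refine htend.frequently (Eventually.frequently ?_)
    have h5 : ∀ᶠ s : ℝ in 𝓝[>] 0, s < 1 / 4 := nhdsWithin_le_nhds (Iio_mem_nhds (by norm_num))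
    filter_upwards [self_mem_nhdsWithin, h5] with s hs hs1
    have hs' : (0 : ℝ) < s := hs
    have hnorm : ‖(s : ℂ) * (z - b)‖ = s * ‖z - b‖ := by
      rw [norm_mul, Complex.norm_real, Real.norm_of_nonneg hs'.le]
    refine ⟨?_, ?_⟩
    · intro b' hb'
      by_cases hbb : b' = b
      · rw [hbb]
        have h6 : z + (s : ℂ) * (z - b) - b = ((1 + s : ℝ) : ℂ) * (z - b) := by
          push_cast
          ring
        rw [h6, norm_mul, Complex.norm_real, Real.norm_of_nonneg (by linarith)]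
        have h7 := hz b hb
        nlinarith [norm_nonneg (z - b)]
      · have h6 := h.far hb hb' hbb hb3
        have h7 : z - b' = (z + (s : ℂ) * (z - b) - b') - (s : ℂ) * (z - b) := by ring
        rw [h7] at h6
        have h8 := norm_sub_le (z + (s : ℂ) * (z - b) - b') ((s : ℂ) * (z - b))
        rw [hnorm] at h8
        have h9 : s * ‖z - b‖ ≤ 1 * (3 * δ) :=
          mul_le_mul (by linarith) hb3.le (norm_nonneg _) zero_le_one
        linarith
    · have h6 : (z + (s : ℂ) * (z - b)).re = b.re + (1 + s) * (z - b).re := by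
        simp
        ring
      have h7 : |(z - b).re| ≤ 3 * δ := (Complex.abs_re_le_norm _).trans hb3.le
      rw [h6]
      have h8 := h.B_re b hb
      calc |b.re + (1 + s) * (z - b).re| ≤ |b.re| + |(1 + s) * (z - b).re| := abs_add_le _ _
        _ = |b.re| + (1 + s) * |(z - b).re| := by rw [abs_mul, abs_of_pos (by linarith : (0 : ℝ) < 1 + s)]
        _ ≤ |b.re| + (1 + 1 / 4) * (3 * δ) := by
          have : (1 + s) * |(z - b).re| ≤ (1 + 1 / 4) * (3 * δ) := mul_le_mul (by linarith) h7 (abs_nonneg _) (by norm_num)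
          linarith
        _ < W := by linarith
  · push Not at h1
    have hW := h.W_pos
    -- move towards the imaginary axis
    obtain ⟨e, he⟩ : ∃ e : ℝ, (e = 1 ∨ e = -1) ∧ ∀ s : ℝ, 0 < s → s < W → |z.re + e * s| < W := by
      rcases le_total 0 z.re with h2 | h2
      · refine ⟨-1, Or.inr rfl, fun s hs hsW => ?_⟩
        rw [abs_of_nonneg h2] at hzW
        rw [abs_lt]
        constructor <;> linarith
      · refine ⟨1, Or.inl rfl, fun s hs hsW => ?_⟩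
        rw [abs_of_nonpos h2] at hzW
        rw [abs_lt]
        constructor <;> linarith
    have hen : ‖(e : ℂ)‖ = 1 := by
      rcases he.1 with h2 | h2 <;> simp [h2]
    have htend : Tendsto (fun s : ℝ => z + (e : ℂ) * (s : ℂ)) (𝓝[>] 0) (𝓝[≠] z) := by
      refine tendsto_nhdsWithin_iff.2 ⟨?_, ?_⟩
      · have hc : Continuous (fun s : ℝ => z + (e : ℂ) * (s : ℂ)) := by fun_prop
        have h2 := hc.tendsto 0
        simp only [Complex.ofReal_zero, mul_zero, add_zero] at h2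
        exact h2.mono_left nhdsWithin_le_nhds
      · filter_upwards [self_mem_nhdsWithin] with s hs
        have hs' : (0 : ℝ) < s := hs
        show z + (e : ℂ) * (s : ℂ) ≠ z
        intro heq
        have h3 : (e : ℂ) * (s : ℂ) = 0 := by
          rwa [add_eq_left] at heq
        rcases mul_eq_zero.1 h3 with h4 | h4
        · rw [h4, norm_zero] at hen
          exact one_ne_zero hen.symm
        · exact hs'.ne' (Complex.ofReal_eq_zero.1 h4)
    refine htend.frequently (Eventually.frequently ?_)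
    have h5 : ∀ᶠ s : ℝ in 𝓝[>] 0, s < min δ W := nhdsWithin_le_nhds (Iio_mem_nhds (lt_min hδ hW))
    filter_upwards [self_mem_nhdsWithin, h5] with s hs hs1
    have hs' : (0 : ℝ) < s := hs
    refine ⟨?_, ?_⟩
    · intro b hb
      have h2 := h1 b hb
      have h3 : z - b = (z + (e : ℂ) * (s : ℂ) - b) - (e : ℂ) * (s : ℂ) := by ring
      rw [h3] at h2
      have h4 := norm_sub_le (z + (e : ℂ) * (s : ℂ) - b) ((e : ℂ) * (s : ℂ))
      rw [norm_mul, hen, one_mul, Complex.norm_real, Real.norm_of_nonneg hs'.le] at h4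
      have h5 := hs1.trans_le (min_le_left _ _)
      linarith
    · have h6 : (z + (e : ℂ) * (s : ℂ)).re = z.re + e * s := by simp
      rw [h6]
      exact he.2 s hs' (hs1.trans_le (min_le_right _ _))

/-- a point to the right of all bad points -/
theorem HD0.right_mem (h : HD0 K p B δ W S) {z : ℂ} (hz : W - 2 * δ ≤ z.re) : z ∈ Gd B (2 * δ) := by
  intro b hb
  have h1 := h.B_re b hb
  have h2 : |(z - b).re| ≤ ‖z - b‖ := Complex.abs_re_le_norm _
  have h3 : (z - b).re = z.re - b.re := Complex.sub_re _ _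
  have h4 := le_abs_self (z - b).re
  have h5 := le_abs_self b.re
  linarith

/-! ## limits -/

theorem HD0.exists_lim (h : HD0 K p B δ W S) (𝒰 : Ultrafilter ℕ) {Ω : ℕ → Set ℂ} (F : ℕ → ℂ → Y) (hΩ : ∀ n, IsOpen (Ω n) ∧ Convex ℝ (Ω n))
    (hex : ∀ R : ℝ, ∀ᶠ n in (𝒰 : Filter ℕ), ball 0 R ⊆ Ω n) (hF : ∀ᶠ n in (𝒰 : Filter ℕ), F n ∈ S (Ω n)) :
    ∃ f ∈ S Set.univ, ∀ z, z ∉ B → Tendsto (fun n => F n z) 𝒰 (𝓝 (f z)) := by
  have key : ∀ z, ∃ y : Y, z ∉ B → Tendsto (fun n => F n z) 𝒰 (𝓝 y) := by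
    intro z
    by_cases hz : z ∈ B
    · exact ⟨F 0 z, fun h' => absurd hz h'⟩
    · have h1 : ((𝒰.map fun n => F n z : Ultrafilter Y) : Filter Y) ≤ 𝓟 K := by
        rw [Filter.le_principal_iff]
        show ∀ᶠ n in (𝒰 : Filter ℕ), F n z ∈ K
        filter_upwards [hF, hex (‖z‖ + 1)] with n hn hn2
        exact h.mem _ (hΩ n).1 (hΩ n).2 _ hn z (hn2 (by rw [mem_ball_zero_iff]; linarith)) hz
      obtain ⟨y, _, hy⟩ := h.compact.ultrafilter_le_nhds _ h1
      exact ⟨y, fun _ => hy⟩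
  choose f hf using key
  exact ⟨f, h.lim 𝒰 Ω F f hΩ hex hF hf, hf⟩

theorem HD0.unif (h : HD0 K p B δ W S) (𝒰 : Ultrafilter ℕ) {Ω : ℕ → Set ℂ} (F : ℕ → ℂ → Y) (hΩ : ∀ n, IsOpen (Ω n) ∧ Convex ℝ (Ω n))
    (hex : ∀ R : ℝ, ∀ᶠ n in (𝒰 : Filter ℕ), ball 0 R ⊆ Ω n) (hF : ∀ᶠ n in (𝒰 : Filter ℕ), F n ∈ S (Ω n))
    {f : ℂ → Y} (hfS : f ∈ S Set.univ) (hf : ∀ z, z ∉ B → Tendsto (fun n => F n z) 𝒰 (𝓝 (f z))) {δ' : ℝ} (hδ' : 0 < δ') (R ε : ℝ)
    (hε : 0 < ε) : ∀ᶠ n in (𝒰 : Filter ℕ), ∀ z ∈ Gd B δ', ‖z‖ ≤ R → dist (F n z) (f z) < ε := by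
  obtain ⟨L, hL, hlip⟩ := h.lip δ' R hδ'
  have hcpt : IsCompact (Gd B δ' ∩ closedBall (0 : ℂ) R) := (isCompact_closedBall 0 R).inter_left (isClosed_gd δ')
  obtain ⟨s, hs⟩ : ∃ s : ℝ, s = min (δ' / 2) (ε / (4 * L)) := ⟨_, rfl⟩
  have hs0 : 0 < s := by
    rw [hs]
    exact lt_min (by positivity) (by positivity)
  have hs1 : s ≤ δ' / 2 := by rw [hs]; exact min_le_left _ _
  have hs2 : L * s ≤ ε / 4 := by
    have h1 : s ≤ ε / (4 * L) := by rw [hs]; exact min_le_right _ _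
    calc L * s ≤ L * (ε / (4 * L)) := mul_le_mul_of_nonneg_left h1 hL.le
      _ = ε / 4 := by field_simp
  obtain ⟨t, htC, htf, hcov⟩ := hcpt.finite_cover_balls hs0
  have hev : ∀ᶠ n in (𝒰 : Filter ℕ), ∀ x ∈ t, dist (F n x) (f x) < ε / 4 := by
    rw [Filter.eventually_all_finite htf]
    intro x hx
    have h1 := hf x (gd_notMem hδ' (htC hx).1)
    exact (tendsto_iff_dist_tendsto_zero.mp h1).eventually_lt_const (by positivity)
  filter_upwards [hF, hev, hex (R + δ' + 1)] with n hn hn2 hn3 z hz hzR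
  have hzC : z ∈ Gd B δ' ∩ closedBall (0 : ℂ) R := ⟨hz, by rwa [mem_closedBall, dist_zero_right]⟩
  obtain ⟨x, hx, hzx⟩ := Set.mem_iUnion₂.mp (hcov hzC)
  have hxz : ‖x - z‖ < s := by
    rw [mem_ball, dist_comm, dist_eq_norm] at hzx
    exact hzx
  have hzx' : z ∈ closedBall x (δ' / 2) := by
    rw [mem_closedBall, dist_comm, dist_eq_norm]
    linarith
  have hxR : ‖x‖ ≤ R := by
    have := (htC hx).2
    rwa [mem_closedBall, dist_zero_right] at this
  have hxre : |x.re| ≤ R := (Complex.abs_re_le_norm x).trans hxR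
  have hxb : closedBall x δ' ⊆ ball 0 (R + δ' + 1) := by
    intro w hw
    rw [mem_closedBall, dist_eq_norm] at hw
    rw [mem_ball_zero_iff]
    have h4 : w = (w - x) + x := by ring
    calc ‖w‖ = ‖(w - x) + x‖ := by rw [← h4]
      _ ≤ ‖w - x‖ + ‖x‖ := norm_add_le _ _
      _ < R + δ' + 1 := by linarith
  have h1 := hlip (Ω n) (hΩ n).1 (hΩ n).2 (F n) hn x (htC hx).1 hxre (hxb.trans hn3) z hzx'
  have h2 := hlip Set.univ isOpen_univ convex_univ f hfS x (htC hx).1 hxre (Set.subset_univ _) z hzx'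
  have h3 := hn2 x hx
  have h4 : L * ‖x - z‖ ≤ ε / 4 := (mul_le_mul_of_nonneg_left hxz.le hL.le).trans hs2
  have h5 := dist_triangle4 (F n z) (F n x) (f x) (f z)
  rw [dist_comm (F n z) (F n x)] at h5
  linarith

theorem HD0.tendsto_along (h : HD0 K p B δ W S) (𝒰 : Ultrafilter ℕ) {Ω : ℕ → Set ℂ} (F : ℕ → ℂ → Y)
    (hΩ : ∀ n, IsOpen (Ω n) ∧ Convex ℝ (Ω n)) (hex : ∀ R : ℝ, ∀ᶠ n in (𝒰 : Filter ℕ), ball 0 R ⊆ Ω n) (hF : ∀ᶠ n in (𝒰 : Filter ℕ), F n ∈ S (Ω n))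
    {f : ℂ → Y} (hf : ∀ z, z ∉ B → Tendsto (fun n => F n z) 𝒰 (𝓝 (f z))) {w : ℕ → ℂ} {z : ℂ} (hz : z ∉ B)
    (hw : Tendsto w 𝒰 (𝓝 z)) : Tendsto (fun n => F n (w n)) 𝒰 (𝓝 (f z)) := by
  obtain ⟨δ', hδ', hzδ⟩ := h.exists_gd hz
  obtain ⟨L, hL, hlip⟩ := h.lip δ' |z.re| hδ'
  rw [tendsto_iff_dist_tendsto_zero]
  have h1 : Tendsto (fun n => L * dist z (w n) + dist (F n z) (f z)) 𝒰 (𝓝 (L * 0 + 0)) := by
    refine Tendsto.add (Tendsto.const_mul L ?_) (tendsto_iff_dist_tendsto_zero.mp (hf z hz))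
    have h2 := tendsto_iff_dist_tendsto_zero.mp hw
    simp only [dist_comm z]
    exact h2
  rw [mul_zero, add_zero] at h1
  refine squeeze_zero' (Eventually.of_forall fun _ => dist_nonneg) ?_ h1
  have h2 : ∀ᶠ n in (𝒰 : Filter ℕ), w n ∈ closedBall z (δ' / 2) :=
    hw.eventually (closedBall_mem_nhds z (by positivity))
  filter_upwards [hF, h2, hex (‖z‖ + δ' + 1)] with n hn hn2 hn3
  have hzb : closedBall z δ' ⊆ ball 0 (‖z‖ + δ' + 1) := by
    intro w hw
    rw [mem_closedBall, dist_eq_norm] at hw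
    rw [mem_ball_zero_iff]
    have h4 : w = (w - z) + z := by ring
    calc ‖w‖ = ‖(w - z) + z‖ := by rw [← h4]
      _ ≤ ‖w - z‖ + ‖z‖ := norm_add_le _ _
      _ < ‖z‖ + δ' + 1 := by linarith
  have h3 := hlip (Ω n) (hΩ n).1 (hΩ n).2 (F n) hn z hzδ le_rfl (hzb.trans hn3) (w n) hn2
  rw [← dist_eq_norm] at h3
  have h4 := dist_triangle_left (F n (w n)) (f z) (F n z)
  linarith

/-- two different members of `S` differ at good points near any good point -/
theorem HD0.exists_ne (h : HD0 K p B δ W S) {Ω : Set ℂ} (hΩ : IsOpen Ω) (hΩc : Convex ℝ Ω) {f g : ℂ → Y} (hf : f ∈ S Ω) (hg : g ∈ S Ω)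
    (hne : ¬ AgO B Ω f g) {z : ℂ} (hzΩ : z ∈ Ω) (hz : z ∈ Gd B (2 * δ)) (hzW : |z.re| ≤ W) {ε : ℝ} (hε : 0 < ε) :
    ∃ w ∈ Gd B (2 * δ), |w.re| < W ∧ ‖w - z‖ < ε ∧ f w ≠ g w := by
  by_contra hcon
  push Not at hcon
  apply hne
  refine h.uniq Ω hΩ hΩc f hf g hg z hzΩ (gd_notMem (by linarith [h.δ_pos]) hz) ?_
  have h1 : ∀ᶠ w in 𝓝[≠] z, ‖w - z‖ < ε := by
    have h2 : ∀ᶠ w in 𝓝 z, ‖w - z‖ < ε := by
      filter_upwards [ball_mem_nhds z hε] with w hw
      rwa [mem_ball, dist_eq_norm] at hw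
    exact h2.filter_mono nhdsWithin_le_nhds
  refine ((h.perfect hz hzW).and_eventually h1).mono ?_
  rintro w ⟨⟨hw1, hw2⟩, hw3⟩
  exact hcon w hw1 hw2 hw3

/-- a vertical translation by a multiple of the period which brings `y` near `0` -/
theorem HD0.exists_int (h : HD0 K p B δ W S) (y : ℝ) : ∃ l : ℤ, |y - p * l| ≤ p := by
  refine ⟨⌊y / p⌋, ?_⟩
  have hp := h.p_pos
  have h1 := Int.floor_le (y / p)
  have h2 := Int.lt_floor_add_one (y / p)
  rw [le_div_iff₀ hp] at h1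
  rw [div_lt_iff₀ hp] at h2
  rw [abs_of_nonneg (by nlinarith)]
  nlinarith

/-- two entire members which agree at the good points of a box of large height agree -/
theorem HD0.ag_of_eq (h : HD0 K p B δ W S) {Ω : Set ℂ} (hΩ : IsOpen Ω) (hΩc : Convex ℝ Ω) {f g : ℂ → Y} (hf : f ∈ S Ω) (hg : g ∈ S Ω)
    {c : ℂ} (hc : c ∈ Ω) (hcr : c.re = W - δ) (heq : ∀ z ∈ ball c δ, f z = g z) : AgO B Ω f g := by
  have hδ := h.δ_pos
  refine h.uniq Ω hΩ hΩc f hf g hg c hc (gd_notMem (by linarith) (h.right_mem (z := c) (by linarith))) ?_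
  have h1 : ∀ᶠ z in 𝓝 c, f z = g z := by
    filter_upwards [ball_mem_nhds c hδ] with z hz using heq z hz
  exact (h1.filter_mono nhdsWithin_le_nhds).frequently

theorem HD0.tr_mem (h : HD0 K p B δ W S) {Ω : Set ℂ} (hΩ : IsOpen Ω) (hΩc : Convex ℝ Ω) {f : ℂ → Y} (hf : f ∈ S Ω) (l : ℤ) :
    tr p l f ∈ S (Sh p l Ω) := h.trans Ω hΩ hΩc f hf l

theorem HD0.tr_univ (h : HD0 K p B δ W S) {f : ℂ → Y} (hf : f ∈ S Set.univ) (l : ℤ) : tr p l f ∈ S Set.univ :=
  h.trans Set.univ isOpen_univ convex_univ f hf l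

theorem HD0.ag_tr (h : HD0 K p B δ W S) {Ω : Set ℂ} {f g : ℂ → Y} (l : ℤ) : AgO B (Sh p l Ω) (tr p l f) (tr p l g) ↔ AgO B Ω f g := by
  constructor
  · intro h1 z hz hzB
    have h2 : z - p * l * Complex.I + p * l * Complex.I = z := by ring
    have h3 : z - p * l * Complex.I ∈ Sh p l Ω := by
      show z - p * l * Complex.I + p * l * Complex.I ∈ Ω
      rwa [h2]
    have h4 : z - p * l * Complex.I ∉ B := by
      intro h5
      apply hzB
      have h6 := h.B_inv _ h5 l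
      rwa [h2] at h6
    have h5 : f (z - p * l * Complex.I + p * l * Complex.I) = g (z - p * l * Complex.I + p * l * Complex.I) := h1 _ h3 h4
    rwa [h2] at h5
  · intro h1 z hz hzB
    exact h1 (z + p * l * Complex.I) hz fun h2 => hzB ((h.mem_add l).1 h2)

theorem HD0.res_HP (h : HD0 K p B δ W S) {σ ρ ρ' : ℝ} (hρ : ρ ≤ ρ') {f : ℂ → Y} (hf : f ∈ S (HP σ ρ)) : f ∈ S (HP σ ρ') :=
  h.anti _ _ (isOpen_HP σ ρ) (convex_HP σ ρ) (isOpen_HP σ ρ') (convex_HP σ ρ') (HP_anti hρ) hf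

theorem HD0.res_univ (h : HD0 K p B δ W S) {Ω : Set ℂ} (hΩ : IsOpen Ω) (hΩc : Convex ℝ Ω) {f : ℂ → Y} (hf : f ∈ S Set.univ) : f ∈ S Ω :=
  h.anti _ _ isOpen_univ convex_univ hΩ hΩc (Set.subset_univ _) hf

theorem HD0.ag_of_HP (h : HD0 K p B δ W S) {Ω : Set ℂ} (hΩ : IsOpen Ω) (hΩc : Convex ℝ Ω) {f g : ℂ → Y} (hf : f ∈ S Ω) (hg : g ∈ S Ω) {σ ρ : ℝ}
    (hσ : σ = 1 ∨ σ = -1) (hsub : HP σ ρ ⊆ Ω) (hag : AgO B (HP σ ρ) f g) : AgO B Ω f g := by
  have hδ := h.δ_pos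
  set z₀ : ℂ := ((W : ℝ) : ℂ) + ctr σ ρ 1 with hz₀
  have hre : z₀.re = W := by rw [hz₀, Complex.add_re, ctr_re, Complex.ofReal_re, add_zero]
  have him : σ * z₀.im = ρ + 1 := by
    rw [hz₀, Complex.add_im, ctr_im, Complex.ofReal_im, zero_add, ← mul_assoc, sq_one hσ, one_mul]
  have hz₀H : z₀ ∈ HP σ ρ := by
    show ρ < σ * z₀.im
    linarith
  refine h.uniq Ω hΩ hΩc f hf g hg z₀ (hsub hz₀H) (gd_notMem (by linarith) (h.right_mem (by rw [hre]; linarith))) ?_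
  have h1 : ∀ᶠ z in 𝓝 z₀, f z = g z := by
    filter_upwards [(isOpen_HP σ ρ).mem_nhds hz₀H, ball_mem_nhds z₀ hδ] with z hz1 hz2
    refine hag z hz1 (gd_notMem (show 0 < 2 * δ by linarith) (h.right_mem ?_))
    rw [mem_ball, dist_eq_norm] at hz2
    have h2 := (Complex.abs_re_le_norm (z - z₀)).trans_lt hz2
    rw [Complex.sub_re, hre] at h2
    linarith [(abs_lt.1 h2).1]
  exact (h1.filter_mono nhdsWithin_le_nhds).frequently

end Pool.Agent.H62.LR
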