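import Pool.Agent.H62.LR.Landau
import Pool.Agent.H17.Montel
import Pool.Agent.H87.LR.Ident

/-!
# LR LimA: limits of functions which omit `0` and `1`, local statements
-/

set_option autoImplicit false

open Topology Filter Metric

namespace Pool.Agent.H62.LR

/-- `H` is holomorphic on `ball z R` and omits `0`, `1` there -/
def Om (H : ℂ → ℂ) (z : ℂ) (R : ℝ) : Prop := DifferentiableOn ℂ H (ball z R) ∧ ∀ w ∈ ball z R, H w ≠ 0 ∧ H w ≠ 1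

theorem Om.mono {H : ℂ → ℂ} {z w : ℂ} {R r : ℝ} (h : Om H z R) (hsub : ball w r ⊆ ball z R) : Om H w r :=
  ⟨h.1.mono hsub, fun u hu => h.2 u (hsub hu)⟩

theorem Om.inv {H : ℂ → ℂ} {z : ℂ} {R : ℝ} (h : Om H z R) : Om (fun w => (H w)⁻¹) z R := by
  refine ⟨h.1.inv fun w hw => (h.2 w hw).1, fun w hw => ⟨inv_ne_zero (h.2 w hw).1, fun h1 => (h.2 w hw).2 ?_⟩⟩
  exact inv_eq_one.1 h1

theorem Om.one_sub {H : ℂ → ℂ} {z : ℂ} {R : ℝ} (h : Om H z R) : Om (fun w => 1 - H w) z R := by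
  refine ⟨h.1.const_sub 1, fun w hw => ⟨?_, ?_⟩⟩
  · rw [sub_ne_zero]
    exact (h.2 w hw).2.symm
  · intro h1
    exact (h.2 w hw).1 (by linear_combination -h1)

theorem tendsto_zero_of_cube {𝒰 : Filter ℕ} {x y : ℕ → ℂ} (hx : Tendsto x 𝒰 (𝓝 0)) (h : ∀ᶠ n in 𝒰, ‖x n‖ ≤ 1 / 2 → ‖y n‖ ^ 3 ≤ ‖x n‖) :
    Tendsto y 𝒰 (𝓝 0) := by
  rw [Metric.tendsto_nhds] at hx ⊢
  intro ε hε
  filter_upwards [hx (min (1 / 2) (ε ^ 3)) (by positivity), h] with n h1 h2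
  rw [dist_zero_right, lt_min_iff] at h1
  rw [dist_zero_right]
  exact lt_of_pow_lt_pow_left₀ 3 hε.le ((h2 h1.1.le).trans_lt h1.2)

/-- convergence to `0` is a locally constant property -/
theorem zero_loc (𝒰 : Ultrafilter ℕ) {H : ℕ → ℂ → ℂ} {z : ℂ} {R : ℝ} (hR : 0 < R) (hH : ∀ᶠ n in (𝒰 : Filter ℕ), Om (H n) z R) :
    ∀ᶠ w in 𝓝 z, (Tendsto (fun n => H n w) 𝒰 (𝓝 0) ↔ Tendsto (fun n => H n z) 𝒰 (𝓝 0)) := by
  obtain ⟨c, hc, hc1, h3⟩ := harnack3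
  have hpos : 0 < c * (R / 2) := by positivity
  have hle : c * (R / 2) ≤ R / 2 := by nlinarith
  filter_upwards [ball_mem_nhds z hpos] with w hw
  have hwn : dist w z < c * (R / 2) := hw
  have hsub : ball w (R / 2) ⊆ ball z R := ball_subset_ball' (by linarith)
  have hsub' : ball z (R / 2) ⊆ ball z R := ball_subset_ball (by linarith)
  constructor
  · intro h
    refine tendsto_zero_of_cube h ?_
    filter_upwards [hH] with n hn h1
    have h4 := hn.mono hsub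
    exact h3 (H n) w (R / 2) (by positivity) h4.1 h4.2 h1 z (by rw [mem_ball, dist_comm]; exact hwn)
  · intro h
    refine tendsto_zero_of_cube h ?_
    filter_upwards [hH] with n hn h1
    have h4 := hn.mono hsub'
    exact h3 (H n) z (R / 2) (by positivity) h4.1 h4.2 h1 w hw

/-- bounded at the centre: limits on a smaller ball -/
theorem lim_loc (𝒰 : Ultrafilter ℕ) {H : ℕ → ℂ → ℂ} {z : ℂ} {R : ℝ} (hR : 0 < R) (hH : ∀ᶠ n in (𝒰 : Filter ℕ), Om (H n) z R) {a : ℂ}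
    (ha : Tendsto (fun n => H n z) 𝒰 (𝓝 a)) : ∃ (r M : ℝ) (h : ℂ → ℂ), 0 < r ∧ (∀ᶠ n in (𝒰 : Filter ℕ), ∀ w ∈ ball z r, ‖H n w‖ ≤ M) ∧
      DifferentiableOn ℂ h (ball z r) ∧ ∀ w ∈ ball z r, Tendsto (fun n => H n w) 𝒰 (𝓝 (h w)) := by
  obtain ⟨c, hc, hc1, h3⟩ := local_bound (‖a‖ + 1)
  have hle : c * R ≤ R := by nlinarith
  have hev : ∀ᶠ n in (𝒰 : Filter ℕ), ‖H n z‖ ≤ ‖a‖ + 1 := by
    have h1 := ha.norm.eventually_lt_const (show ‖a‖ < ‖a‖ + 1 by linarith)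
    exact h1.mono fun n hn => hn.le
  have hb : ∀ᶠ n in (𝒰 : Filter ℕ), ∀ w ∈ ball z (c * R), ‖H n w‖ ≤ ‖a‖ + 1 + 1 := by
    filter_upwards [hH, hev] with n hn hn2
    exact h3 (H n) z R hR hn.1 hn.2 hn2
  have hd : ∀ᶠ n in (𝒰 : Filter ℕ), DifferentiableOn ℂ (H n) (ball z (c * R)) := by
    filter_upwards [hH] with n hn
    exact hn.1.mono (ball_subset_ball hle)
  obtain ⟨h, hh, hconv⟩ := Pool.Agent.H17.montel_ultrafilter 𝒰 hd hb
  exact ⟨c * R, ‖a‖ + 1 + 1, h, by positivity, hb, hh, fun w hw => hconv.tendsto_at hw⟩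

/-- along an ultrafilter a sequence converges in `ℂ` or to `∞` -/
theorem lim_or (𝒰 : Ultrafilter ℕ) (x : ℕ → ℂ) : (∃ a, Tendsto x 𝒰 (𝓝 a)) ∨ Tendsto (fun n => (x n)⁻¹) 𝒰 (𝓝 0) := by
  by_cases h : ∃ M : ℝ, ∀ᶠ n in (𝒰 : Filter ℕ), ‖x n‖ ≤ M
  · obtain ⟨M, hM⟩ := h
    left
    obtain ⟨a, _, ha⟩ := (isCompact_closedBall (0 : ℂ) M).ultrafilter_le_nhds (𝒰.map x) (by
      rw [Filter.le_principal_iff]
      show ∀ᶠ n in (𝒰 : Filter ℕ), x n ∈ closedBall (0 : ℂ) M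
      filter_upwards [hM] with n hn
      rwa [mem_closedBall, dist_zero_right])
    exact ⟨a, ha⟩
  · right
    push Not at h
    rw [Metric.tendsto_nhds]
    intro ε hε
    filter_upwards [h ε⁻¹] with n hn
    rw [dist_zero_right, norm_inv]
    exact inv_lt_of_inv_lt₀ hε hn

end Pool.Agent.H62.LR
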