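import Pool.Agent.H17.Montel

/-!
# LR LimB: limits of meromorphic functions at a point which is the only zero or pole
-/

set_option autoImplicit false

open Topology Filter Metric

namespace Pool.Agent.H62.LR

/-- a meromorphic function without zeros and poles outside the centre is a power times a function without zeros -/
theorem factor {X : ℂ → ℂ} {b : ℂ} {r : ℝ} (hr : 0 < r) (hmer : MeromorphicAt X b)
    (hX : ∀ z ∈ closedBall b r, z ≠ b → AnalyticAt ℂ X z ∧ X z ≠ 0) :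
    ∃ (k : ℤ) (h : ℂ → ℂ), (∀ z ∈ closedBall b r, AnalyticAt ℂ h z ∧ h z ≠ 0) ∧ ∀ z, z ≠ b → X z = (z - b) ^ k * h z := by
  have hev : ∀ᶠ z in 𝓝[≠] b, X z ≠ 0 := by
    rw [eventually_nhdsWithin_iff]
    filter_upwards [closedBall_mem_nhds b hr] with z hz hzb
    exact (hX z hz hzb).2
  obtain ⟨g, hg, hgb, heq⟩ := (meromorphicOrderAt_ne_top_iff hmer).1 ((meromorphicOrderAt_ne_top_iff_eventually_ne_zero hmer).2 hev)
  set k : ℤ := (meromorphicOrderAt X b).untop₀ with hk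
  obtain ⟨h, hhb, hhz⟩ : ∃ h : ℂ → ℂ, h b = g b ∧ ∀ z, z ≠ b → h z = (z - b) ^ (-k) * X z :=
    ⟨fun z => if z = b then g b else (z - b) ^ (-k) * X z, if_pos rfl, fun z hz => if_neg hz⟩
  refine ⟨k, h, ?_, ?_⟩
  · intro z hz
    by_cases hzb : z = b
    · rw [hzb, hhb]
      refine ⟨hg.congr ?_, hgb⟩
      have heq' : ∀ᶠ w in 𝓝 b, w ∈ ({b}ᶜ : Set ℂ) → X w = (w - b) ^ k • g w := eventually_nhdsWithin_iff.1 heq
      filter_upwards [heq'] with w hw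
      by_cases hwb : w = b
      · rw [hwb, hhb]
      · rw [hhz w hwb, hw hwb, smul_eq_mul, ← mul_assoc, ← zpow_add₀ (sub_ne_zero.2 hwb), neg_add_cancel, zpow_zero, one_mul]
    · have hz0 := sub_ne_zero.2 hzb
      have h1 : AnalyticAt ℂ (fun w => (w - b) ^ (-k) * X w) z :=
        ((analyticAt_id.sub analyticAt_const).zpow hz0).mul (hX z hz hzb).1
      refine ⟨h1.congr ?_, ?_⟩
      · filter_upwards [isOpen_compl_singleton.mem_nhds hzb] with w hw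
        exact (hhz w hw).symm
      · rw [hhz z hzb]
        exact mul_ne_zero (zpow_ne_zero _ hz0) (hX z hz hzb).2
  · intro z hzb
    rw [hhz z hzb, ← mul_assoc, ← zpow_add₀ (sub_ne_zero.2 hzb), add_neg_cancel, zpow_zero, one_mul]

/-- the maximum principle -/
theorem max_pr {h : ℂ → ℂ} {b : ℂ} {r C : ℝ} (hr : 0 < r) (hh : ∀ z ∈ closedBall b r, AnalyticAt ℂ h z) (hC : ∀ z, ‖z - b‖ = r → ‖h z‖ ≤ C) :
    ∀ z ∈ closedBall b r, ‖h z‖ ≤ C := by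
  intro z hz
  have hd : DiffContOnCl ℂ h (ball b r) := by
    apply DifferentiableOn.diffContOnCl
    rw [closure_ball b hr.ne']
    exact fun w hw => (hh w hw).differentiableAt.differentiableWithinAt
  refine Complex.norm_le_of_forall_mem_frontier_norm_le isBounded_ball hd (fun w hw => ?_) ?_
  · rw [frontier_ball b hr.ne', mem_sphere, dist_eq_norm] at hw
    exact hC w hw
  · rwa [closure_ball b hr.ne']

/-- the bounds for the exponent and for the factor -/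
theorem factor_bound {h : ℂ → ℂ} {k : ℤ} {b : ℂ} {r M : ℝ} (hr : 0 < r) (hh : ∀ z ∈ closedBall b r, AnalyticAt ℂ h z ∧ h z ≠ 0)
    (hM : ∀ z, r / 2 ≤ ‖z - b‖ → ‖z - b‖ ≤ r → ‖(z - b) ^ k * h z‖ ≤ M ∧ ‖(z - b) ^ k * h z‖⁻¹ ≤ M) :
    (2 : ℝ) ^ k ≤ M ^ 2 ∧ (2 : ℝ) ^ (-k) ≤ M ^ 2 ∧ ∀ z ∈ closedBall b r, ‖h z‖ ≤ M * r ^ (-k) ∧ ‖(h z)⁻¹‖ ≤ M * r ^ k := by
  have hn : ∀ z, ‖(z - b) ^ k * h z‖ = ‖z - b‖ ^ k * ‖h z‖ := by
    intro z
    rw [norm_mul, norm_zpow]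
  have h1 : ∀ z ∈ closedBall b r, ‖h z‖ ≤ M * r ^ (-k) := by
    refine max_pr hr (fun z hz => (hh z hz).1) fun z hz => ?_
    have h2 := (hM z (by linarith) hz.le).1
    rw [hn, hz] at h2
    rw [zpow_neg, ← div_eq_mul_inv, le_div_iff₀ (zpow_pos hr k), mul_comm]
    exact h2
  have h2 : ∀ z ∈ closedBall b r, ‖(h z)⁻¹‖ ≤ M * r ^ k := by
    refine max_pr hr (fun z hz => (hh z hz).1.inv (hh z hz).2) fun z hz => ?_
    have h3 := (hM z (by linarith) hz.le).2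
    rw [hn, hz, mul_inv, inv_mul_le_iff₀ (zpow_pos hr k)] at h3
    rw [norm_inv, mul_comm]
    exact h3
  obtain ⟨z, hz⟩ : ∃ z : ℂ, ‖z - b‖ = r / 2 := by
    refine ⟨b + (r / 2 : ℝ), ?_⟩
    rw [add_sub_cancel_left, Complex.norm_real, Real.norm_of_nonneg (by positivity)]
  have hzc : z ∈ closedBall b r := by
    rw [mem_closedBall, dist_eq_norm, hz]
    linarith
  have hz0 : 0 < ‖h z‖ := norm_pos_iff.2 (hh z hzc).2
  have h3 := hM z hz.ge (by linarith)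
  rw [hn, hz] at h3
  have hr2 : (0 : ℝ) < (r / 2) ^ k := zpow_pos (by positivity) k
  have hrk : (0 : ℝ) < r ^ k := zpow_pos hr k
  have hM0 : 0 ≤ M := le_trans (by positivity) h3.1
  have hdiv : (r / 2) ^ k = r ^ k / 2 ^ k := div_zpow r 2 k
  have h2k : (0 : ℝ) < 2 ^ k := zpow_pos two_pos k
  refine ⟨?_, ?_, fun w hw => ⟨h1 w hw, h2 w hw⟩⟩
  · -- `1 / M ≤ (r / 2) ^ k ‖h z‖ ≤ (r / 2) ^ k M r ^ (- k) = M / 2 ^ k`
    have h4 : (r / 2) ^ k * ‖h z‖ ≤ M / 2 ^ k := by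
      calc (r / 2) ^ k * ‖h z‖ ≤ (r / 2) ^ k * (M * r ^ (-k)) := mul_le_mul_of_nonneg_left (h1 z hzc) hr2.le
        _ = M / 2 ^ k := by
          rw [hdiv, zpow_neg]
          field_simp
    have h5 : 1 ≤ M * ((r / 2) ^ k * ‖h z‖) := by
      have h6 := mul_le_mul_of_nonneg_right h3.2 (show 0 ≤ (r / 2) ^ k * ‖h z‖ by positivity)
      rwa [inv_mul_cancel₀ (by positivity)] at h6
    have h6 : 1 ≤ M * (M / 2 ^ k) := h5.trans (mul_le_mul_of_nonneg_left h4 hM0)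
    rw [← mul_div_assoc, le_div_iff₀ h2k, one_mul] at h6
    linarith [sq M]
  · have h4 : ((r / 2) ^ k * ‖h z‖)⁻¹ ≤ M * 2 ^ k := by
      have h5 := h2 z hzc
      rw [norm_inv] at h5
      calc ((r / 2) ^ k * ‖h z‖)⁻¹ = ((r / 2) ^ k)⁻¹ * ‖h z‖⁻¹ := by rw [mul_inv]
        _ ≤ ((r / 2) ^ k)⁻¹ * (M * r ^ k) := mul_le_mul_of_nonneg_left h5 (by positivity)
        _ = M * 2 ^ k := by
          rw [hdiv]
          field_simp
    have h5 : 1 ≤ M * 2 ^ k * ((r / 2) ^ k * ‖h z‖) := by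
      have h6 := mul_le_mul_of_nonneg_right h4 (show 0 ≤ (r / 2) ^ k * ‖h z‖ by positivity)
      rwa [inv_mul_cancel₀ (by positivity)] at h6
    have h6 : 1 ≤ M * 2 ^ k * M := h5.trans (mul_le_mul_of_nonneg_left h3.1 (by positivity))
    rw [zpow_neg, inv_le_iff_one_le_mul₀ h2k]
    linarith [show M * 2 ^ k * M = M ^ 2 * 2 ^ k by ring]

theorem finite_exp (C : ℝ) : {k : ℤ | (2 : ℝ) ^ k ≤ C ∧ (2 : ℝ) ^ (-k) ≤ C}.Finite := by
  obtain ⟨N, hN⟩ := pow_unbounded_of_one_lt C (show (1 : ℝ) < 2 by norm_num)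
  have key : ∀ k : ℤ, (2 : ℝ) ^ k ≤ C → k ≤ N := by
    intro k hk
    by_contra h1
    push Not at h1
    have h2 : (2 : ℝ) ^ (N : ℤ) ≤ 2 ^ k := zpow_le_zpow_right₀ (by norm_num) h1.le
    rw [zpow_natCast] at h2
    linarith
  refine (Set.finite_Icc (-(N : ℤ)) N).subset ?_
  rintro k ⟨h1, h2⟩
  have h3 := key k h1
  have h4 := key (-k) h2
  exact ⟨by linarith, h3⟩

/-- the limit at a point which is the only zero or pole -/
theorem lim_at (𝒰 : Ultrafilter ℕ) {X : ℕ → ℂ → ℂ} {b : ℂ} {r M : ℝ} (hr : 0 < r)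
    (hX : ∀ᶠ n in (𝒰 : Filter ℕ), MeromorphicAt (X n) b ∧ ∀ z ∈ closedBall b r, z ≠ b → AnalyticAt ℂ (X n) z ∧ X n z ≠ 0) {f : ℂ → ℂ}
    (hf : ∀ z ∈ ball b r, z ≠ b → Tendsto (fun n => X n z) 𝒰 (𝓝 (f z)))
    (hM : ∀ᶠ n in (𝒰 : Filter ℕ), ∀ z, r / 2 ≤ ‖z - b‖ → ‖z - b‖ ≤ r → ‖X n z‖ ≤ M ∧ ‖X n z‖⁻¹ ≤ M) :
    ∃ (k : ℤ) (h : ℂ → ℂ), AnalyticAt ℂ h b ∧ h b ≠ 0 ∧ (∀ z ∈ ball b r, z ≠ b → f z = (z - b) ^ k * h z) ∧
      (k = 0 → ∀ A : Set ℂ, A.Finite → (∀ᶠ n in (𝒰 : Filter ℕ), ∀ a, Tendsto (X n) (𝓝[≠] b) (𝓝 a) → a ∈ A) → h b ∈ A) := by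
  have key : ∀ n, ∃ (k : ℤ) (h : ℂ → ℂ), (MeromorphicAt (X n) b ∧ ∀ z ∈ closedBall b r, z ≠ b → AnalyticAt ℂ (X n) z ∧ X n z ≠ 0) →
      (∀ z ∈ closedBall b r, AnalyticAt ℂ h z ∧ h z ≠ 0) ∧ ∀ z, z ≠ b → X n z = (z - b) ^ k * h z := by
    intro n
    by_cases h1 : MeromorphicAt (X n) b ∧ ∀ z ∈ closedBall b r, z ≠ b → AnalyticAt ℂ (X n) z ∧ X n z ≠ 0
    · obtain ⟨k, h, hk⟩ := factor hr h1.1 h1.2
      exact ⟨k, h, fun _ => hk⟩
    · exact ⟨0, X n, fun h2 => absurd h2 h1⟩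
  choose k h hkh using key
  have hne : ∀ z, r / 2 ≤ ‖z - b‖ → z ≠ b := by
    rintro z hz rfl
    rw [sub_self, norm_zero] at hz
    linarith
  have hall : ∀ᶠ n in (𝒰 : Filter ℕ), ((∀ z ∈ closedBall b r, AnalyticAt ℂ (h n) z ∧ h n z ≠ 0) ∧ ∀ z, z ≠ b → X n z = (z - b) ^ (k n) * h n z) ∧
      (2 : ℝ) ^ (k n) ≤ M ^ 2 ∧ (2 : ℝ) ^ (-(k n)) ≤ M ^ 2 ∧ ∀ z ∈ closedBall b r, ‖h n z‖ ≤ M * r ^ (-(k n)) ∧ ‖(h n z)⁻¹‖ ≤ M * r ^ (k n) := by
    filter_upwards [hX, hM] with n hn hn2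
    have h1 := hkh n hn
    refine ⟨h1, factor_bound hr h1.1 fun z hz hz2 => ?_⟩
    have h2 := hn2 z hz hz2
    rwa [h1.2 z (hne z hz)] at h2
  obtain ⟨k₀, _, hk₀⟩ := (Ultrafilter.eventually_exists_mem_iff (f := 𝒰) (P := fun k₀ n => k n = k₀) (finite_exp (M ^ 2))).1
    (hall.mono fun n hn => ⟨k n, ⟨hn.2.1, hn.2.2.1⟩, rfl⟩)
  obtain ⟨h₁, hh₁, hc₁⟩ := Pool.Agent.H17.montel_ultrafilter 𝒰 (F := h) (a := b) (r := r) (B := M * r ^ (-k₀))
    (by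
      filter_upwards [hall] with n hn
      exact fun z hz => (hn.1.1 z (ball_subset_closedBall hz)).1.differentiableAt.differentiableWithinAt)
    (by
      filter_upwards [hall, hk₀] with n hn hn2 z hz
      have h1 := (hn.2.2.2 z (ball_subset_closedBall hz)).1
      rwa [hn2] at h1)
  obtain ⟨h₂, hh₂, hc₂⟩ := Pool.Agent.H17.montel_ultrafilter 𝒰 (F := fun n z => (h n z)⁻¹) (a := b) (r := r) (B := M * r ^ k₀)
    (by
      filter_upwards [hall] with n hn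
      exact fun z hz => ((hn.1.1 z (ball_subset_closedBall hz)).1.inv (hn.1.1 z (ball_subset_closedBall hz)).2).differentiableAt.differentiableWithinAt)
    (by
      filter_upwards [hall, hk₀] with n hn hn2 z hz
      have h1 := (hn.2.2.2 z (ball_subset_closedBall hz)).2
      rwa [hn2] at h1)
  have hbb : b ∈ ball b r := mem_ball_self hr
  have hprod : h₁ b * h₂ b = 1 := by
    have h1 : Tendsto (fun n => h n b * (h n b)⁻¹) 𝒰 (𝓝 (h₁ b * h₂ b)) := (hc₁.tendsto_at hbb).mul (hc₂.tendsto_at hbb)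
    have h2 : Tendsto (fun n => h n b * (h n b)⁻¹) 𝒰 (𝓝 1) := by
      refine tendsto_const_nhds.congr' ?_
      filter_upwards [hall] with n hn
      exact (mul_inv_cancel₀ (hn.1.1 b (mem_closedBall_self hr.le)).2).symm
    exact tendsto_nhds_unique h1 h2
  refine ⟨k₀, h₁, hh₁.analyticAt (isOpen_ball.mem_nhds hbb), fun h1 => ?_, fun z hz hzb => ?_, fun hk0 A hA hXA => ?_⟩
  · rw [h1, zero_mul] at hprod
    exact one_ne_zero hprod.symm
  · have h1 : Tendsto (fun n => X n z) 𝒰 (𝓝 ((z - b) ^ k₀ * h₁ z)) := by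
      refine ((hc₁.tendsto_at hz).const_mul ((z - b) ^ k₀)).congr' ?_
      filter_upwards [hall, hk₀] with n hn hn2
      rw [hn.1.2 z hzb, hn2]
    exact tendsto_nhds_unique (hf z hz hzb) h1
  · refine hA.isClosed.mem_of_tendsto (hc₁.tendsto_at hbb) ?_
    filter_upwards [hall, hk₀, hXA] with n hn hn2 hn3
    refine hn3 _ ?_
    have h1 : Tendsto (h n) (𝓝[≠] b) (𝓝 (h n b)) := (hn.1.1 b (mem_closedBall_self hr.le)).1.continuousAt.continuousWithinAt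
    refine h1.congr' ?_
    filter_upwards [self_mem_nhdsWithin] with z hz
    rw [hn.1.2 z hz, hn2, hk0, zpow_zero, one_mul]

/-- the values of the limit -/
theorem val_at {f h : ℂ → ℂ} {b a : ℂ} {r : ℝ} {k : ℤ} (hr : 0 < r) (hh : AnalyticAt ℂ h b) (hb : h b ≠ 0)
    (hf : ∀ z ∈ ball b r, z ≠ b → f z = (z - b) ^ k * h z) (ha : Tendsto f (𝓝[≠] b) (𝓝 a)) : 0 ≤ k ∧ (0 < k → a = 0) ∧ (k = 0 → a = h b) := by
  have hev : ∀ᶠ z in 𝓝[≠] b, z ≠ b ∧ f z = (z - b) ^ k * h z := by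
    rw [eventually_nhdsWithin_iff]
    filter_upwards [ball_mem_nhds b hr] with z hz hzb
    exact ⟨hzb, hf z hz hzb⟩
  have hhc : Tendsto h (𝓝[≠] b) (𝓝 (h b)) := hh.continuousAt.continuousWithinAt
  have hid : ∀ m : ℕ, m ≠ 0 → Tendsto (fun z : ℂ => (z - b) ^ m) (𝓝[≠] b) (𝓝 0) := by
    intro m hm
    have h1 : ContinuousAt (fun z : ℂ => (z - b) ^ m) b := by fun_prop
    have h2 : Tendsto (fun z : ℂ => (z - b) ^ m) (𝓝[≠] b) (𝓝 ((b - b) ^ m)) := h1.continuousWithinAt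
    rwa [sub_self, zero_pow hm] at h2
  refine ⟨?_, fun hk => ?_, fun hk => ?_⟩
  · by_contra hk
    push Not at hk
    obtain ⟨m, hm⟩ : ∃ m : ℕ, k = -(m : ℤ) := ⟨k.natAbs, by omega⟩
    have hm0 : m ≠ 0 := by omega
    have h1 : Tendsto h (𝓝[≠] b) (𝓝 (0 * a)) := by
      refine ((hid m hm0).mul ha).congr' ?_
      filter_upwards [hev] with z hz
      have h2 : (z - b) ^ m ≠ 0 := pow_ne_zero _ (sub_ne_zero.2 hz.1)
      rw [hz.2, hm, zpow_neg, zpow_natCast, ← mul_assoc, mul_inv_cancel₀ h2, one_mul]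
    rw [zero_mul] at h1
    exact hb (tendsto_nhds_unique hhc h1)
  · obtain ⟨m, hm⟩ : ∃ m : ℕ, k = (m : ℤ) := ⟨k.natAbs, by omega⟩
    have hm0 : m ≠ 0 := by omega
    have h1 : Tendsto f (𝓝[≠] b) (𝓝 (0 * h b)) := by
      refine ((hid m hm0).mul hhc).congr' ?_
      filter_upwards [hev] with z hz
      rw [hz.2, hm, zpow_natCast]
    rw [zero_mul] at h1
    exact tendsto_nhds_unique ha h1
  · have h1 : Tendsto f (𝓝[≠] b) (𝓝 (h b)) := by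
      refine hhc.congr' ?_
      filter_upwards [hev] with z hz
      rw [hz.2, hk, zpow_zero, one_mul]
    exact tendsto_nhds_unique ha h1

end Pool.Agent.H62.LR
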