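import Pool.Agent.H62.LR.Defs
import Pool.Agent.H87.LR.LimA
import Pool.Agent.H87.LR.LimB

/-!
# LR LimGen: limits of the functions in `Tm` on convex domains
-/

set_option autoImplicit false

open Topology Filter Metric

noncomputable section

namespace Pool.Agent.H62.LR

open Pool.Agent.H36.BP (EN)
open Pool.Agent.H62.EF (MN pr pr_smul continuousAt_pr norm_pr)

variable {p : ℝ} {B : Set ℂ} {δ W : ℝ} {𝓛 : Set (ℂ → ℂ)} {C A : Set ℂ}

theorem v1_ne (w : ℂ) : v1 w ≠ 0 := by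
  intro h
  have h1 := congrFun (congrArg (fun v : EN 1 => (v : Fin 2 → ℂ)) h) 0
  simp [v1] at h1

theorem v0_ne : v0 ≠ 0 := by
  intro h
  have h1 := congrFun (congrArg (fun v : EN 1 => (v : Fin 2 → ℂ)) h) 1
  simp [v0] at h1

theorem continuous_kp : Continuous kp := by
  rw [continuous_iff_continuousAt]
  intro w
  have h1 : Continuous v1 := by
    unfold v1
    refine (PiLp.continuous_toLp 2 _).comp ?_
    refine continuous_pi fun i => ?_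
    fin_cases i
    · exact continuous_const
    · exact continuous_id
  exact ContinuousAt.comp (g := pr) (f := v1) (continuousAt_pr (v1_ne w)) h1.continuousAt

theorem kp_inf {l : Filter ℕ} {x : ℕ → ℂ} (hx : ∀ᶠ n in l, x n ≠ 0) (h : Tendsto (fun n => (x n)⁻¹) l (𝓝 0)) :
    Tendsto (fun n => kp (x n)) l (𝓝 kinf) := by
  have hc : Continuous fun w : ℂ => (WithLp.toLp 2 ![w, 1] : EN 1) := by
    refine (PiLp.continuous_toLp 2 _).comp ?_
    refine continuous_pi fun i => ?_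
    fin_cases i
    · exact continuous_id
    · exact continuous_const
  have h1 : Tendsto (fun n => (WithLp.toLp 2 ![(x n)⁻¹, 1] : EN 1)) l (𝓝 v0) := (hc.tendsto 0).comp h
  have h2 : Tendsto (fun n => pr (WithLp.toLp 2 ![(x n)⁻¹, 1] : EN 1)) l (𝓝 (pr v0)) := (continuousAt_pr v0_ne).tendsto.comp h1
  refine h2.congr' ?_
  filter_upwards [hx] with n hn
  have h3 : (WithLp.toLp 2 ![(x n)⁻¹, 1] : EN 1) = (x n)⁻¹ • v1 (x n) := by
    ext i
    fin_cases i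
    · simp [v1]
    · simp [v1, hn]
  rw [h3, pr_smul _ (inv_ne_zero hn)]
  rfl

theorem BaseD.discrete (h : BaseD p B δ W 𝓛 C A) (z : ℂ) : ∀ᶠ w in 𝓝[≠] z, w ∉ B := by
  have hδ := h.δ_pos
  have hsub : (B ∩ ball z (4 * δ)).Subsingleton := by
    intro b hb b' hb'
    by_contra hne
    have h1 := h.B_sep b hb.1 b' hb'.1 hne
    have h2 := mem_ball.1 hb.2
    have h3 := mem_ball.1 hb'.2
    have h4 := dist_triangle_right b b' z
    rw [dist_eq_norm] at h4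
    linarith
  have h1 : ∀ᶠ w in 𝓝[≠] z, w ∉ (B ∩ ball z (4 * δ)) \ {z} := by
    refine (hsub.anti Set.diff_subset).finite.isClosed.isOpen_compl.eventually_mem ?_ |>.filter_mono nhdsWithin_le_nhds
    exact fun h2 => h2.2 rfl
  have h2 : ∀ᶠ w in 𝓝[≠] z, w ∈ ball z (4 * δ) := mem_nhdsWithin_of_mem_nhds (ball_mem_nhds z (by positivity))
  filter_upwards [h1, h2, self_mem_nhdsWithin] with w hw1 hw2 hw3 hwB
  exact hw1 ⟨⟨hwB, hw2⟩, hw3⟩

/-- a closed ball without further points of `B` -/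
theorem BaseD.exists_ball (h : BaseD p B δ W 𝓛 C A) {Ω : Set ℂ} (hΩ : IsOpen Ω) {z : ℂ} (hz : z ∈ Ω) :
    ∃ R : ℝ, 0 < R ∧ closedBall z R ⊆ Ω ∧ ∀ w ∈ closedBall z R, w ≠ z → w ∉ B := by
  have h1 := h.discrete z
  rw [eventually_nhdsWithin_iff] at h1
  have h2 : ∀ᶠ w in 𝓝 z, w ∈ Ω := hΩ.mem_nhds hz
  obtain ⟨R, hR, hsub⟩ := Metric.nhds_basis_closedBall.eventually_iff.1 (h2.and h1)
  exact ⟨R, hR, fun w hw => (hsub hw).1, fun w hw => (hsub hw).2⟩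

/-- limits on convex domains, without exhaustion by domains: `X n` has the property on neighbourhoods of compact sets -/
theorem lim_gen (h : BaseD p B δ W 𝓛 C A) (𝒰 : Ultrafilter ℕ) {Ω : Set ℂ} (hΩ : IsOpen Ω) (hΩc : Convex ℝ Ω) (X : ℕ → ℂ → ℂ)
    (hX : ∀ Q : Set ℂ, Q ⊆ Ω → IsCompact Q → ∀ᶠ n in (𝒰 : Filter ℕ), ∃ V : Set ℂ, IsOpen V ∧ Q ⊆ V ∧ X n ∈ Tm B 𝓛 C A V) :
    (∃ s ∈ Sec 𝓛, ∀ z ∈ Ω, z ∉ B → Tendsto (fun n => kp (X n z)) 𝒰 (𝓝 (s z))) ∨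
      ∃ f ∈ Tm B 𝓛 C A Ω, ∀ z ∈ Ω, z ∉ B → Tendsto (fun n => X n z) 𝒰 (𝓝 (f z)) := by
  have hpre : IsPreconnected Ω := hΩc.isPreconnected
  have hdis := h.discrete
  -- the functions near a good point
  have hOm : ∀ z ∈ Ω, z ∉ B → ∃ R : ℝ, 0 < R ∧ ∀ᶠ n in (𝒰 : Filter ℕ), Om (X n) z R ∧ ∀ L ∈ 𝓛, Om (fun w => X n w / L w) z R := by
    intro z hz hzB
    obtain ⟨R, hR, hsub, hRB⟩ := h.exists_ball hΩ hz
    refine ⟨R, hR, ?_⟩
    have hB : ∀ w ∈ ball z R, w ∉ B := by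
      intro w hw
      by_cases hwz : w = z
      · rwa [hwz]
      · exact hRB w (ball_subset_closedBall hw) hwz
    filter_upwards [hX (closedBall z R) hsub (isCompact_closedBall z R)] with n hn
    obtain ⟨V, _, hQV, hnV⟩ := hn
    have h1 := fun w (hw : w ∈ ball z R) => hnV.2.1 w (hQV (ball_subset_closedBall hw)) (hB w hw)
    refine ⟨⟨fun w hw => (h1 w hw).1.differentiableAt.differentiableWithinAt, fun w hw => ⟨(h1 w hw).2.1, (h1 w hw).2.2.1⟩⟩, fun L hL => ⟨?_, ?_⟩⟩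
    · exact fun w hw => ((h1 w hw).1.div (h.L_an L hL w (hB w hw)).1 (h.L_an L hL w (hB w hw)).2.1).differentiableAt.differentiableWithinAt
    · intro w hw
      have h2 := (h.L_an L hL w (hB w hw)).2.1
      refine ⟨div_ne_zero (h1 w hw).2.1 h2, fun h3 => (h1 w hw).2.2.2 L hL ?_⟩
      rwa [div_eq_one_iff_eq h2] at h3
  have hne0 : ∀ z ∈ Ω, z ∉ B → ∀ᶠ n in (𝒰 : Filter ℕ), X n z ≠ 0 := by
    intro z hz hzB
    obtain ⟨R, hR, hn⟩ := hOm z hz hzB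
    exact hn.mono fun n hn => (hn.1.2 z (mem_ball_self hR)).1
  by_cases hinf : ∃ z₀ ∈ Ω, z₀ ∉ B ∧ Tendsto (fun n => (X n z₀)⁻¹) 𝒰 (𝓝 0)
  · obtain ⟨z₀, hz₀, hz₀B, h0⟩ := hinf
    left
    refine ⟨fun _ => kinf, Or.inl (Or.inl rfl), fun z hz hzB => kp_inf (hne0 z hz hzB) ?_⟩
    refine const_of_local hΩ hpre hdis (fun z => Tendsto (fun n => (X n z)⁻¹) 𝒰 (𝓝 0)) (fun z hz hzB => ?_) hz₀ hz₀B h0 z hz hzB
    obtain ⟨R, hR, hn⟩ := hOm z hz hzB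
    exact zero_loc 𝒰 (H := fun n z => (X n z)⁻¹) hR (hn.mono fun n hn => hn.1.inv)
  by_cases hzero : ∃ z₀ ∈ Ω, z₀ ∉ B ∧ Tendsto (fun n => X n z₀) 𝒰 (𝓝 0)
  · obtain ⟨z₀, hz₀, hz₀B, h0⟩ := hzero
    left
    refine ⟨fun _ => kp 0, Or.inl (Or.inr (Or.inl rfl)), fun z hz hzB => (continuous_kp.tendsto 0).comp ?_⟩
    refine const_of_local hΩ hpre hdis (fun z => Tendsto (fun n => X n z) 𝒰 (𝓝 0)) (fun z hz hzB => ?_) hz₀ hz₀B h0 z hz hzB
    obtain ⟨R, hR, hn⟩ := hOm z hz hzB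
    exact zero_loc 𝒰 (H := X) hR (hn.mono fun n hn => hn.1)
  by_cases hone : ∃ z₀ ∈ Ω, z₀ ∉ B ∧ Tendsto (fun n => 1 - X n z₀) 𝒰 (𝓝 0)
  · obtain ⟨z₀, hz₀, hz₀B, h0⟩ := hone
    left
    refine ⟨fun _ => kp 1, Or.inl (Or.inr (Or.inr rfl)), fun z hz hzB => (continuous_kp.tendsto 1).comp ?_⟩
    have h1 := const_of_local hΩ hpre hdis (fun z => Tendsto (fun n => 1 - X n z) 𝒰 (𝓝 0)) (fun z hz hzB => ?_) hz₀ hz₀B h0 z hz hzB
    · have h2 := h1.const_sub 1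
      simpa using h2
    · obtain ⟨R, hR, hn⟩ := hOm z hz hzB
      exact zero_loc 𝒰 (H := fun n z => 1 - X n z) hR (hn.mono fun n hn => hn.1.one_sub)
  by_cases hLL : ∃ L ∈ 𝓛, ∃ z₀ ∈ Ω, z₀ ∉ B ∧ Tendsto (fun n => 1 - X n z₀ / L z₀) 𝒰 (𝓝 0)
  · obtain ⟨L, hL, z₀, hz₀, hz₀B, h0⟩ := hLL
    left
    refine ⟨fun z => kp (L z), Or.inr ⟨L, hL, rfl⟩, fun z hz hzB => (continuous_kp.tendsto (L z)).comp ?_⟩
    have h1 := const_of_local hΩ hpre hdis (fun z => Tendsto (fun n => 1 - X n z / L z) 𝒰 (𝓝 0)) (fun z hz hzB => ?_) hz₀ hz₀B h0 z hz hzB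
    · have h2 := (h1.const_sub 1).mul_const (L z)
      have h3 := (h.L_an L hL z hzB).2.1
      refine (h2.congr fun n => ?_).trans (by rw [sub_zero, one_mul])
      rw [sub_sub_cancel, div_mul_cancel₀ _ h3]
    · obtain ⟨R, hR, hn⟩ := hOm z hz hzB
      exact zero_loc 𝒰 (H := fun n z => 1 - X n z / L z) hR (hn.mono fun n hn => (hn.2 L hL).one_sub)
  right
  push Not at hinf hzero hone hLL
  have hex : ∀ z, ∃ a : ℂ, z ∈ Ω → z ∉ B → Tendsto (fun n => X n z) 𝒰 (𝓝 a) := by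
    intro z
    by_cases hz : z ∈ Ω ∧ z ∉ B
    · rcases lim_or 𝒰 (fun n => X n z) with ⟨a, ha⟩ | h1
      · exact ⟨a, fun _ _ => ha⟩
      · exact absurd h1 (hinf z hz.1 hz.2)
    · exact ⟨0, fun h1 h2 => absurd ⟨h1, h2⟩ hz⟩
  choose f hf using hex
  have hf0 : ∀ z ∈ Ω, z ∉ B → f z ≠ 0 := by
    intro z hz hzB h1
    have h2 := hf z hz hzB
    rw [h1] at h2
    exact hzero z hz hzB h2
  have hf1 : ∀ z ∈ Ω, z ∉ B → f z ≠ 1 := by
    intro z hz hzB h1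
    have h2 := (hf z hz hzB).const_sub 1
    rw [h1, sub_self] at h2
    exact hone z hz hzB h2
  have hfL : ∀ z ∈ Ω, z ∉ B → ∀ L ∈ 𝓛, f z ≠ L z := by
    intro z hz hzB L hL h1
    have h2 := ((hf z hz hzB).div_const (L z)).const_sub 1
    rw [h1, div_self (h.L_an L hL z hzB).2.1, sub_self] at h2
    exact hLL L hL z hz hzB h2
  have hfan : ∀ z ∈ Ω, z ∉ B → AnalyticAt ℂ f z := by
    intro z hz hzB
    obtain ⟨R, hR, hn⟩ := hOm z hz hzB
    obtain ⟨r, M, g, hr, _, hg, hgc⟩ := lim_loc 𝒰 hR (hn.mono fun n hn => hn.1) (hf z hz hzB)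
    refine (hg.analyticAt (isOpen_ball.mem_nhds (mem_ball_self hr))).congr ?_
    have h1 := h.discrete z
    rw [eventually_nhdsWithin_iff] at h1
    filter_upwards [h1, hΩ.mem_nhds hz, ball_mem_nhds z hr] with w hw1 hw2 hw3
    have hwB : w ∉ B := by
      by_cases hwz : w = z
      · rwa [hwz]
      · exact hw1 hwz
    exact tendsto_nhds_unique (hgc w hw3) (hf w hw2 hwB)
  -- the bad points
  have hbad : ∀ b ∈ Ω, b ∈ B → ∃ (r : ℝ) (k : ℤ) (g : ℂ → ℂ), 0 < r ∧ AnalyticAt ℂ g b ∧ g b ≠ 0 ∧ (∀ z ∈ ball b r, z ≠ b → f z = (z - b) ^ k * g z) ∧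
      (k = 0 → b ∈ C → g b ∈ A) := by
    intro b hb hbB
    obtain ⟨r, hr, hsub, hrB⟩ := h.exists_ball hΩ hb
    have hXr : ∀ᶠ n in (𝒰 : Filter ℕ), (MeromorphicAt (X n) b ∧ ∀ z ∈ closedBall b r, z ≠ b → AnalyticAt ℂ (X n) z ∧ X n z ≠ 0) ∧
        (b ∈ C → ∀ a, Tendsto (X n) (𝓝[≠] b) (𝓝 a) → a ∈ A) := by
      filter_upwards [hX (closedBall b r) hsub (isCompact_closedBall b r)] with n hn
      obtain ⟨V, _, hQV, hnV⟩ := hn
      have hbV : b ∈ V := hQV (mem_closedBall_self hr.le)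
      refine ⟨⟨hnV.1 b hbV, fun z hz hzb => ?_⟩, fun hbC => hnV.2.2 b hbV hbC⟩
      have h1 := hnV.2.1 z (hQV hz) (hrB z hz hzb)
      exact ⟨h1.1, h1.2.1⟩
    have hcpt : IsCompact (closedBall b r ∩ {z | r / 2 ≤ ‖z - b‖}) :=
      (isCompact_closedBall b r).inter_right (isClosed_le continuous_const (by fun_prop))
    obtain ⟨M, hM⟩ : ∃ M : ℝ, ∀ᶠ n in (𝒰 : Filter ℕ), ∀ z ∈ closedBall b r ∩ {z | r / 2 ≤ ‖z - b‖}, ‖X n z‖ ≤ M ∧ ‖X n z‖⁻¹ ≤ M := by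
      refine hcpt.induction_on (p := fun s => ∃ M : ℝ, ∀ᶠ n in (𝒰 : Filter ℕ), ∀ z ∈ s, ‖X n z‖ ≤ M ∧ ‖X n z‖⁻¹ ≤ M) ?_ ?_ ?_ ?_
      · exact ⟨0, Eventually.of_forall fun n z hz => absurd hz (Set.notMem_empty z)⟩
      · rintro s t hst ⟨M, hM⟩
        exact ⟨M, hM.mono fun n hn z hz => hn z (hst hz)⟩
      · rintro s t ⟨M, hM⟩ ⟨M', hM'⟩
        refine ⟨max M M', ?_⟩
        filter_upwards [hM, hM'] with n hn hn' z hz
        rcases hz with hz | hz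
        · exact ⟨(hn z hz).1.trans (le_max_left _ _), (hn z hz).2.trans (le_max_left _ _)⟩
        · exact ⟨(hn' z hz).1.trans (le_max_right _ _), (hn' z hz).2.trans (le_max_right _ _)⟩
      · rintro z ⟨hz1, hz2⟩
        have hzb : z ≠ b := by
          rintro rfl
          have h1 : r / 2 ≤ ‖z - z‖ := hz2
          rw [sub_self, norm_zero] at h1
          linarith
        have hzΩ := hsub hz1
        have hzB := hrB z hz1 hzb
        obtain ⟨R, hR, hn⟩ := hOm z hzΩ hzB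
        obtain ⟨r₁, M₁, _, hr₁, hM₁, _⟩ := lim_loc 𝒰 hR (hn.mono fun n hn => hn.1) (hf z hzΩ hzB)
        obtain ⟨r₂, M₂, _, hr₂, hM₂, _⟩ := lim_loc 𝒰 (H := fun n w => (X n w)⁻¹) hR (hn.mono fun n hn => hn.1.inv) ((hf z hzΩ hzB).inv₀ (hf0 z hzΩ hzB))
        refine ⟨ball z (min r₁ r₂), mem_nhdsWithin_of_mem_nhds (ball_mem_nhds z (lt_min hr₁ hr₂)), max M₁ M₂, ?_⟩
        filter_upwards [hM₁, hM₂] with n hn1 hn2 w hw
        have h1 := hn1 w (ball_subset_ball (min_le_left _ _) hw)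
        have h2 := hn2 w (ball_subset_ball (min_le_right _ _) hw)
        rw [norm_inv] at h2
        exact ⟨h1.trans (le_max_left _ _), h2.trans (le_max_right _ _)⟩
    obtain ⟨k, g, hg, hgb, hfg, hk⟩ := lim_at 𝒰 hr (hXr.mono fun n hn => hn.1) (f := f)
      (fun z hz hzb => hf z (hsub (ball_subset_closedBall hz)) (hrB z (ball_subset_closedBall hz) hzb))
      (hM.mono fun n hn z hz1 hz2 => hn z ⟨by rwa [mem_closedBall, dist_eq_norm], hz1⟩)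
    refine ⟨r, k, g, hr, hg, hgb, hfg, fun hk0 hbC => hk hk0 A h.A_fin ?_⟩
    exact hXr.mono fun n hn => hn.2 hbC
  refine ⟨f, ⟨fun z hz => ?_, fun z hz hzB => ⟨hfan z hz hzB, hf0 z hz hzB, hf1 z hz hzB, hfL z hz hzB⟩, fun b hb hbC a ha => ?_⟩, hf⟩
  · by_cases hzB : z ∈ B
    · obtain ⟨r, k, g, hr, hg, hgb, hfg, _⟩ := hbad z hz hzB
      have h1 : MeromorphicAt (fun w => (w - z) ^ k * g w) z :=
        (((MeromorphicAt.id z).sub (MeromorphicAt.const z z)).zpow k).mul hg.meromorphicAt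
      refine h1.congr ?_
      have h2 : ∀ᶠ w in 𝓝[≠] z, w ∈ ball z r := mem_nhdsWithin_of_mem_nhds (ball_mem_nhds z hr)
      filter_upwards [h2, self_mem_nhdsWithin] with w hw1 hw2
      exact (hfg w hw1 hw2).symm
    · exact (hfan z hz hzB).meromorphicAt
  · obtain ⟨r, k, g, hr, hg, hgb, hfg, hk⟩ := hbad b hb (h.C_sub hbC)
    obtain ⟨h1, h2, h3⟩ := val_at hr hg hgb hfg ha
    rcases h1.lt_or_eq with h4 | h4
    · rw [h2 h4]
      exact h.A_zero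
    · rw [h3 h4.symm]
      exact hk h4.symm hbC

end Pool.Agent.H62.LR
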